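import Mathlib

/-! Polycubes: definitions and basic lemmas for the lower bound on the growth constant. -/

set_option autoImplicit false

namespace Pool.Agent.P.MP_d1c5d3_co.PL

open Finset

abbrev Cell (d : ℕ) := Fin d → ℤ

abbrev Dir (d : ℕ) := Fin d × Bool

abbrev St (d : ℕ) := Finset (Cell d) × Finset (Cell d)

variable {d : ℕ}

/-- The unit vector of a direction. -/
def u (t : Dir d) : Cell d := Pi.single t.1 (if t.2 then 1 else -1)

/-- The opposite direction. -/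
def opp (t : Dir d) : Dir d := (t.1, !t.2)

/-- Sum over the `2d` neighbours. -/
def T (h : Cell d → ℝ) : Cell d → ℝ := fun x => ∑ t : Dir d, h (x + u t)

/-- Number of walks of length `l` from `x` to the origin. -/
def E (d l : ℕ) : Cell d → ℝ := T^[l] (fun x => if x = 0 then 1 else 0)

/-- Number of two-step walks from `x ≠ 0` to the origin. -/
def h2 (x : Cell d) : ℝ := if x = 0 then 0 else E d 2 x

/-- The cells adjacent to a cell of `Z`. -/
def nb (Z : Finset (Cell d)) : Finset (Cell d) :=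
  Z.biUnion fun z => Finset.univ.image fun t : Dir d => z + u t

/-- State `(A, Z)`: all cells so far and the last generation; the cells not yet examined. -/
def fresh (s : St d) : Finset (Cell d) := nb s.2 \ (s.1 ∪ nb (s.1 \ s.2))

def step (s : St d) (S : Finset (Cell d)) : St d := (s.1 ∪ S, S)

def s0 (d : ℕ) : St d := ({0}, {0})

/-- Average over a `p`-random subset of `F`. -/
noncomputable def Bin (p : ℝ) (F : Finset (Cell d)) (φ : Finset (Cell d) → ℝ) : ℝ :=
  ∑ S ∈ F.powerset, p ^ S.card * (1 - p) ^ (F.card - S.card) * φ S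

/-- Expectation at level `k` of the generation chain. -/
noncomputable def Ex (p : ℕ → ℝ) : ℕ → (St d → ℝ) → ℝ
  | 0, f => f (s0 d)
  | k + 1, f => Ex p k fun s => Bin (p k) (fresh s) fun S => f (step s S)

/-- Sum over all trajectories of length `k`. -/
noncomputable def Sm : ℕ → (St d → ℝ) → ℝ
  | 0, f => f (s0 d)
  | k + 1, f => Sm k fun s => ∑ S ∈ (fresh s).powerset, f (step s S)

def Inv (s : St d) : Prop :=
  s.2 ⊆ s.1 ∧ (0 : Cell d) ∈ s.1 ∧ ∀ x ∈ s.1, x = 0 ∨ x ∈ nb (s.1 \ s.2)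

/-- All the `p k` are probabilities bounded by `q`. -/
def Pr (p : ℕ → ℝ) (q : ℝ) : Prop := q ≤ 1 ∧ ∀ k, 0 ≤ p k ∧ p k ≤ q

noncomputable def zz (d : ℕ) (p : ℕ → ℝ) (k : ℕ) : ℝ := Ex p k fun s : St d => (s.2.card : ℝ)

noncomputable def ff (d : ℕ) (p : ℕ → ℝ) (k : ℕ) : ℝ :=
  Ex p k fun s : St d => ((fresh s).card : ℝ)

noncomputable def aa (d : ℕ) (p : ℕ → ℝ) (k : ℕ) : ℝ := ∑ j ∈ range (k + 1), zz d p j

/-- Sum of `g` over ordered pairs of distinct cells. -/
noncomputable def pairs (Z : Finset (Cell d)) (g : Cell d → Cell d → ℝ) : ℝ :=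
  ∑ a ∈ Z, ∑ b ∈ Z.erase a, g a b

noncomputable def RR (p : ℕ → ℝ) (k : ℕ) (h : Cell d → ℝ) : ℝ :=
  Ex p k fun s : St d => pairs s.2 fun a b => h (a - b)

noncomputable def QQ (p : ℕ → ℝ) (k : ℕ) (h : Cell d → ℝ) : ℝ :=
  Ex p k fun s : St d => ∑ b ∈ s.2, ∑ w ∈ s.1 \ s.2, h (b - w)

/-- One for two cells with a common neighbour in `Y`, else `h2`. -/
noncomputable def gs (Y : Finset (Cell d)) (a b : Cell d) : ℝ :=
  if ∃ y ∈ Y, a ∈ nb {y} ∧ b ∈ nb {y} then 1 else h2 (a - b)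

noncomputable def sig (d : ℕ) (q : ℝ) (K : ℕ) : ℝ :=
  ∑ n ∈ range (K + 2), ∑ i ∈ range (K + 2), q ^ (n + 2 * i + 3) * E d (n + 2 * i + 5) 0

/-- Linked inside `B`. -/
def Lk (B : Finset (Cell d)) : Cell d → Cell d → Prop :=
  Relation.ReflTransGen fun x y => x ∈ B ∧ y ∈ B ∧ ∃ t : Dir d, y = x + u t

def Cn (B : Finset (Cell d)) : Prop := ∀ a ∈ B, ∀ b ∈ B, Lk B a b

def Conn (B : Finset (Cell d)) : Prop :=
  ((SimpleGraph.fromRel fun x y : Fin d → ℤ => ∑ i, |x i - y i| = 1).induce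
    (↑B : Set (Fin d → ℤ))).Connected

/-- Fixed polycubes: the lexicographically least cell is the origin. -/
def poly (d n : ℕ) : Set (Finset (Fin d → ℤ)) :=
  {B | B.card = n ∧ (0 : Fin d → ℤ) ∈ B ∧ (∀ x ∈ B, toLex (0 : Fin d → ℤ) ≤ toLex x) ∧ Conn B}

/-- At most `m * lam ^ m` connected `m`-sets contain the origin. -/
def RB (d : ℕ) (lam : ℝ) : Prop :=
  ∀ (m : ℕ) (G : Finset (Finset (Cell d))),
    (∀ B ∈ G, B.card = m ∧ (0 : Cell d) ∈ B ∧ Cn B) → (G.card : ℝ) ≤ m * lam ^ m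

theorem opp_opp (t : Dir d) : opp (opp t) = t := by simp [opp]

theorem u_opp (t : Dir d) : u (opp t) = -u t := by
  obtain ⟨i, b⟩ := t
  cases b <;> simp [u, opp, Pi.single_neg]

/-- `opp` as a permutation. -/
def oppE (d : ℕ) : Dir d ≃ Dir d := ⟨opp, opp, opp_opp, opp_opp⟩

theorem sum_opp (f : Dir d → ℝ) : ∑ t, f (opp t) = ∑ t, f t := (oppE d).sum_comp f

theorem u_ne_zero (t : Dir d) : u t ≠ 0 := by
  intro h
  have := congrFun h t.1
  obtain ⟨i, b⟩ := t
  cases b <;> simp [u] at this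

theorem u_inj : Function.Injective (u : Dir d → Cell d) := by
  rintro ⟨i, b⟩ ⟨j, c⟩ h
  have h1 := congrFun h i
  by_cases hij : i = j
  · subst hij
    cases b <;> cases c <;> simp_all [u]
  · cases b <;> simp [u, hij] at h1

theorem card_dir : (Fintype.card (Dir d) : ℝ) = 2 * d := by
  simp [mul_comm]

theorem mem_nb {Z : Finset (Cell d)} {x : Cell d} : x ∈ nb Z ↔ ∃ z ∈ Z, ∃ t, x = z + u t := by
  simp [nb, eq_comm]

theorem nb_mono {Y Z : Finset (Cell d)} (h : Y ⊆ Z) : nb Y ⊆ nb Z := by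
  intro x hx
  obtain ⟨z, hz, t, rfl⟩ := mem_nb.1 hx
  exact mem_nb.2 ⟨z, h hz, t, rfl⟩

theorem mem_fresh {s : St d} {x : Cell d} :
    x ∈ fresh s ↔ x ∈ nb s.2 ∧ x ∉ s.1 ∧ x ∉ nb (s.1 \ s.2) := by
  simp [fresh]

theorem fresh_sub (s : St d) : fresh s ⊆ nb s.2 := sdiff_subset

theorem step_sdiff {s : St d} {S : Finset (Cell d)} (h : S ⊆ fresh s) :
    (step s S).1 \ (step s S).2 = s.1 := by
  ext x
  simp only [step, mem_sdiff, mem_union]
  constructor
  · tauto
  · intro hx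
    exact ⟨Or.inl hx, fun hS => (mem_fresh.1 (h hS)).2.1 hx⟩

theorem inv_s0 : Inv (s0 d) := by simp [Inv, s0]

theorem inv_step {s : St d} (hs : Inv s) {S : Finset (Cell d)} (h : S ⊆ fresh s) :
    Inv (step s S) := by
  refine ⟨subset_union_right, mem_union_left _ hs.2.1, fun x hx => ?_⟩
  rw [step_sdiff h]
  rcases mem_union.1 hx with hx | hx
  · exact (hs.2.2 x hx).imp id fun h' => nb_mono sdiff_subset h'
  · exact Or.inr (nb_mono hs.1 (fresh_sub s (h hx)))

theorem T_mono {f g : Cell d → ℝ} (h : ∀ x, f x ≤ g x) (x : Cell d) : T f x ≤ T g x :=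
  sum_le_sum fun _ _ => h _

theorem T_nonneg {f : Cell d → ℝ} (h : ∀ x, 0 ≤ f x) (x : Cell d) : 0 ≤ T f x :=
  sum_nonneg fun _ _ => h _

theorem T_le {f : Cell d → ℝ} {c : ℝ} (h : ∀ x, f x ≤ c) (x : Cell d) : T f x ≤ 2 * d * c := by
  refine (sum_le_card_nsmul _ _ c fun _ _ => h _).trans_eq ?_
  rw [nsmul_eq_mul, card_univ, card_dir]

theorem Ti_mono (l : ℕ) {f g : Cell d → ℝ} (h : ∀ x, f x ≤ g x) (x : Cell d) :
    T^[l] f x ≤ T^[l] g x := by
  induction l generalizing x with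
  | zero => exact h x
  | succ l ih => simp only [Function.iterate_succ_apply']; exact T_mono ih x

theorem Ti_nonneg (l : ℕ) {f : Cell d → ℝ} (h : ∀ x, 0 ≤ f x) (x : Cell d) : 0 ≤ T^[l] f x := by
  induction l generalizing x with
  | zero => exact h x
  | succ l ih => simp only [Function.iterate_succ_apply']; exact T_nonneg ih x

theorem E_succ (l : ℕ) (x : Cell d) : E d (l + 1) x = ∑ t : Dir d, E d l (x + u t) := by
  simp only [E, Function.iterate_succ_apply']
  rfl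

theorem E_nonneg (l : ℕ) (x : Cell d) : 0 ≤ E d l x :=
  Ti_nonneg l (fun y => by split_ifs <;> norm_num) x

theorem h2_nonneg (x : Cell d) : 0 ≤ h2 x := by
  unfold h2
  split_ifs
  · exact le_rfl
  · exact E_nonneg 2 x

theorem Ti_h2_le (l : ℕ) (x : Cell d) : T^[l] h2 x ≤ E d (l + 2) x := by
  have : E d (l + 2) x = T^[l] (E d 2) x := by
    simp only [E, Function.iterate_add_apply]
  rw [this]
  refine Ti_mono l (fun y => ?_) x
  unfold h2
  split_ifs
  · exact E_nonneg 2 y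
  · exact le_rfl

theorem Bin_mono {p : ℝ} (h0 : 0 ≤ p) (h1 : p ≤ 1) {F : Finset (Cell d)}
    {φ ψ : Finset (Cell d) → ℝ} (h : ∀ S ⊆ F, φ S ≤ ψ S) : Bin p F φ ≤ Bin p F ψ :=
  sum_le_sum fun S hS => mul_le_mul_of_nonneg_left (h S (mem_powerset.1 hS))
    (mul_nonneg (pow_nonneg h0 _) (pow_nonneg (sub_nonneg.2 h1) _))

theorem Bin_congr (p : ℝ) {F : Finset (Cell d)} {φ ψ : Finset (Cell d) → ℝ}
    (h : ∀ S ⊆ F, φ S = ψ S) : Bin p F φ = Bin p F ψ :=
  sum_congr rfl fun S hS => by rw [h S (mem_powerset.1 hS)]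

theorem Bin_add (p : ℝ) (F : Finset (Cell d)) (φ ψ : Finset (Cell d) → ℝ) :
    Bin p F (fun S => φ S + ψ S) = Bin p F φ + Bin p F ψ := by
  simp only [Bin, mul_add, sum_add_distrib]

theorem Bin_mul (p c : ℝ) (F : Finset (Cell d)) (φ : Finset (Cell d) → ℝ) :
    Bin p F (fun S => c * φ S) = c * Bin p F φ := by
  simp only [Bin, mul_sum]
  exact sum_congr rfl fun S _ => by ring

theorem Bin_const (p c : ℝ) (F : Finset (Cell d)) : Bin p F (fun _ => c) = c := by
  simp only [Bin, ← sum_mul]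
  rw [Finset.sum_pow_mul_eq_add_pow]
  simp

theorem Ex_succ (p : ℕ → ℝ) (k : ℕ) (f : St d → ℝ) :
    Ex p (k + 1) f = Ex p k fun s => Bin (p k) (fresh s) fun S => f (step s S) := rfl

theorem Ex_mono {p : ℕ → ℝ} {q : ℝ} (hp : Pr p q) (k : ℕ) {f g : St d → ℝ}
    (h : ∀ s, Inv s → f s ≤ g s) : Ex p k f ≤ Ex p k g := by
  induction k generalizing f g with
  | zero => exact h _ inv_s0
  | succ k ih =>
    exact ih fun s hs => Bin_mono (hp.2 k).1 ((hp.2 k).2.trans hp.1)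
      fun S hS => h _ (inv_step hs hS)

theorem Ex_congr (p : ℕ → ℝ) (k : ℕ) {f g : St d → ℝ}
    (h : ∀ s, Inv s → f s = g s) : Ex p k f = Ex p k g := by
  induction k generalizing f g with
  | zero => exact h _ inv_s0
  | succ k ih => exact ih fun s hs => Bin_congr _ fun S hS => h _ (inv_step hs hS)

theorem Ex_add (p : ℕ → ℝ) (k : ℕ) (f g : St d → ℝ) :
    Ex p k (fun s => f s + g s) = Ex p k f + Ex p k g := by
  induction k generalizing f g with
  | zero => rfl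
  | succ k ih => simp only [Ex_succ, Bin_add, ih]

theorem Ex_mul (p : ℕ → ℝ) (k : ℕ) (c : ℝ) (f : St d → ℝ) :
    Ex p k (fun s => c * f s) = c * Ex p k f := by
  induction k generalizing f with
  | zero => rfl
  | succ k ih => simp only [Ex_succ, Bin_mul, ih]

theorem Ex_const (p : ℕ → ℝ) (k : ℕ) (c : ℝ) : Ex p k (fun _ : St d => c) = c := by
  induction k with
  | zero => rfl
  | succ k ih => simp only [Ex_succ, Bin_const, ih]

theorem Ex_nonneg {p : ℕ → ℝ} {q : ℝ} (hp : Pr p q) (k : ℕ) {f : St d → ℝ}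
    (h : ∀ s, Inv s → 0 ≤ f s) : 0 ≤ Ex p k f :=
  (Ex_const p k 0).symm.le.trans (Ex_mono hp k h)

theorem Sm_succ (k : ℕ) (f : St d → ℝ) :
    Sm (k + 1) f = Sm k fun s => ∑ S ∈ (fresh s).powerset, f (step s S) := rfl

theorem Sm_mono (k : ℕ) {f g : St d → ℝ} (h : ∀ s, f s ≤ g s) : Sm k f ≤ Sm k g := by
  induction k generalizing f g with
  | zero => exact h _
  | succ k ih => exact ih fun s => sum_le_sum fun S _ => h _

theorem zz_nonneg {p : ℕ → ℝ} {q : ℝ} (hp : Pr p q) (k : ℕ) : 0 ≤ zz d p k :=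
  Ex_nonneg hp k fun _ _ => Nat.cast_nonneg _

theorem aa_succ (p : ℕ → ℝ) (k : ℕ) : aa d p (k + 1) = aa d p k + zz d p (k + 1) :=
  sum_range_succ _ _

theorem aa_mono {p : ℕ → ℝ} {q : ℝ} (hp : Pr p q) : Monotone (aa d p) :=
  monotone_nat_of_le_succ fun k => by rw [aa_succ]; linarith [zz_nonneg (d := d) hp (k + 1)]

theorem Lk_symm {B : Finset (Cell d)} {a b : Cell d} (h : Lk B a b) : Lk B b a := by
  induction h with
  | refl => exact .refl
  | tail _ h ih =>
    obtain ⟨h1, h2, t, rfl⟩ := h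
    exact .head ⟨h2, h1, opp t, by rw [u_opp]; abel⟩ ih

theorem Lk_mono {A B : Finset (Cell d)} (hAB : A ⊆ B) {a b : Cell d} (h : Lk A a b) :
    Lk B a b := by
  induction h with
  | refl => exact .refl
  | tail _ h ih => exact .tail ih ⟨hAB h.1, hAB h.2.1, h.2.2⟩

theorem Cn_of_root {B : Finset (Cell d)} {r : Cell d} (h : ∀ x ∈ B, Lk B r x) : Cn B :=
  fun a ha b hb => (Lk_symm (h a ha)).trans (h b hb)

end Pool.Agent.P.MP_d1c5d3_co.PL
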