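import Pool.Agent.P.MP_d1c5d3_co.PL.Iface

/-! Assembly of the two halves. -/

set_option autoImplicit false

namespace Pool.Agent.P.MP_d1c5d3_co.PL

open Finset Filter Topology

theorem final (hLOW : S_LOW) (hROOT : S_ROOT) (hSUP : S_SUP) (hFEK : S_FEK) (hUP : S_UP) :
    ∃ C : ℝ, ∀ d : ℕ, 1 ≤ d → (∀ n, (poly d n).Finite) ∧ ∃ l : ℝ,
      Tendsto (fun n : ℕ => ((poly d n).ncard : ℝ) ^ ((1 : ℝ) / (n : ℝ))) atTop (𝓝 l) ∧
      |l - (2 * d - 3) * Real.exp 1| ≤ C / d := by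
  obtain ⟨C1, d0, h1⟩ := hLOW
  obtain ⟨C2, h2⟩ := hUP
  refine ⟨max (max C1 C2) (2 * Real.exp 1 * d0 ^ 2), fun d hd => ?_⟩
  have hfin := fun n => (h2 d hd n).1
  have hd0 : (0 : ℝ) < d := by exact_mod_cast hd
  have h0 : poly d 0 = ∅ := by
    ext B
    simp only [poly, Set.mem_ofPred_eq, Set.mem_empty_iff_false, iff_false]
    rintro ⟨hc, hm, -⟩
    rw [card_eq_zero.1 hc] at hm
    exact notMem_empty _ hm
  obtain ⟨l, l1, l2, l3, l4⟩ := hFEK (fun n => (poly d n).ncard) _ (hSUP d hd hfin).1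
    (hSUP d hd hfin).2 (fun n _ => (h2 d hd n).2) (by simp [h0])
  refine ⟨hfin, l, l4, abs_le.2 ⟨?_, ?_⟩⟩
  · rcases le_or_gt d0 d with h | h
    · have := h1 d h l (by linarith) (hROOT d l hfin l3)
      have h3 : C1 / d ≤ max (max C1 C2) (2 * Real.exp 1 * d0 ^ 2) / d :=
        div_le_div_of_nonneg_right ((le_max_left _ _).trans (le_max_left _ _)) hd0.le
      linarith
    · have h3 : 2 * Real.exp 1 * d0 ^ 2 / d ≤ max (max C1 C2) (2 * Real.exp 1 * d0 ^ 2) / d :=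
        div_le_div_of_nonneg_right (le_max_right _ _) hd0.le
      have h4 : (d : ℝ) ≤ d0 := by exact_mod_cast h.le
      have he := Real.exp_pos 1
      have h5 : 2 * Real.exp 1 * d ≤ 2 * Real.exp 1 * d0 ^ 2 / d := by
        rw [le_div_iff₀ hd0, mul_assoc]
        exact mul_le_mul_of_nonneg_left (by nlinarith) (by positivity)
      nlinarith
  · have h3 : C2 / d ≤ max (max C1 C2) (2 * Real.exp 1 * d0 ^ 2) / d :=
      div_le_div_of_nonneg_right ((le_max_right _ _).trans (le_max_left _ _)) hd0.le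
    linarith

end Pool.Agent.P.MP_d1c5d3_co.PL
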