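import Pool.Agent.P.MP_d1c5d3_co.PL.Base

/-! Polycubes: the steps of the lower bound. -/

set_option autoImplicit false

namespace Pool.Agent.P.MP_d1c5d3_co.PL

open Finset Filter Topology

-- deps:
def S_BIN : Prop := ∀ (d : ℕ) (p : ℝ) (F : Finset (Cell d)),
  (∀ ψ : Cell d → ℝ, Bin p F (fun S => ∑ b ∈ S, ψ b) = p * ∑ x ∈ F, ψ x) ∧
  ∀ g : Cell d → Cell d → ℝ, Bin p F (fun S => pairs S g) = p ^ 2 * pairs F g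

-- deps: BIN
def S_GIB : Prop := ∀ (d : ℕ) (p : ℕ → ℝ), (∀ k, 0 < p k ∧ p k < 1) → ∀ (k : ℕ) (g : St d → ℝ),
  Real.exp (Ex p k g + ∑ j ∈ range k, ff d p j * Real.binEntropy (p j)) ≤
    Sm k fun s => Real.exp (g s)

-- deps: BIN
def S_MOM : Prop := ∀ (d : ℕ) (p : ℕ → ℝ) (q : ℝ), Pr p q →
  zz d p 0 = 1 ∧ (∀ k, zz d p (k + 1) = p k * ff d p k) ∧ (∀ k, ff d p k ≤ 2 * d * zz d p k) ∧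
  (∀ k, Ex p k (fun s : St d => (s.1.card : ℝ)) = aa d p k) ∧
  ∀ K, ∑ k ∈ range (K + 1), Ex p k (fun s : St d => ((s.2 ∩ nb {0}).card : ℝ)) ≤ q * (2 * d)

-- deps:
def S_TWO : Prop := ∀ (d : ℕ) (x : Cell d),
  E d 2 x = ((univ.filter fun t : Dir d × Dir d => x + u t.1 + u t.2 = 0).card : ℝ) ∧ h2 x ≤ 2

-- deps: TWO
def S_DET : Prop := ∀ (d : ℕ) (s : St d), Inv s → ∀ Y ⊆ s.1,
  2 * (d : ℝ) * s.2.card ≤ (fresh s).card + ∑ b ∈ s.2, ∑ w ∈ s.1 \ s.2, h2 (b - w) +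
    (s.2 ∩ nb {0}).card + 1 / 2 * pairs s.2 (gs Y)

-- deps:
def S_NBS : Prop := ∀ (d : ℕ) (Z F : Finset (Cell d)), F ⊆ nb Z →
  (∀ h : Cell d → ℝ, (∀ x, 0 ≤ h x) →
    (∀ w, ∑ x ∈ F, h (x - w) ≤ ∑ a ∈ Z, T h (a - w)) ∧
    pairs F (fun a b => h (a - b)) ≤ Z.card * T (T h) 0 + pairs Z fun a b => T (T h) (a - b)) ∧
  pairs F (gs Z) ≤ Z.card * (2 * d) ^ 2 + pairs Z fun a b => T (T h2) (a - b)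

-- deps: BIN NBS
def S_REC : Prop := ∀ (d : ℕ) (p : ℕ → ℝ) (q : ℝ), Pr p q → ∀ h : Cell d → ℝ, (∀ x, 0 ≤ h x) →
  RR p 0 h = 0 ∧ QQ p 0 h = 0 ∧ ∀ k,
    RR p (k + 1) h ≤ q ^ 2 * (zz d p k * T (T h) 0 + RR p k (T (T h))) ∧
    QQ p (k + 1) h ≤ q * (QQ p k (T h) + zz d p k * T h 0 + RR p k (T h))

-- deps: REC
def S_SOL : Prop := ∀ (d : ℕ) (p : ℕ → ℝ) (q : ℝ), Pr p q → ∀ (K : ℕ) (h : Cell d → ℝ),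
  (∀ x, 0 ≤ h x) →
  ∑ k ∈ range (K + 1), RR p k h ≤
    aa d p K * ∑ i ∈ range K, q ^ (2 * i + 2) * T^[2 * i + 2] h 0 ∧
  ∑ k ∈ range (K + 1), QQ p k h ≤ aa d p K * ∑ n ∈ range K, (q ^ (n + 1) * T^[n + 1] h 0 +
    ∑ i ∈ range K, q ^ (n + 2 * i + 3) * T^[n + 2 * i + 3] h 0)

-- deps:
def S_RW : Prop := ∀ d : ℕ, 1 ≤ d →
  (∀ l, Odd l → E d l 0 = 0) ∧
  ∀ (m k : ℕ) (x : Cell d), E d (2 * m + k) x ≤ (2 * m + 1).factorial * (2 * d) ^ (m + k)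

-- deps: RW
def S_SIG : Prop := ∃ C : ℝ, ∀ (d : ℕ) (q : ℝ) (K : ℕ), 1 ≤ d → 1 ≤ q * (2 * d) →
  q * (2 * d) ≤ 2 → (K : ℝ) ≤ (2 * d) ^ 5 → (q * (2 * d)) ^ K ≤ (2 * d) ^ 25 →
  sig d q K ≤ C / (2 * d)

-- deps: BIN DET NBS
def S_LEV : Prop := ∀ (d : ℕ) (p : ℕ → ℝ) (q : ℝ), Pr p q →
  2 * (d : ℝ) ≤ ff d p 0 ∧ ∀ k,
    2 * d * zz d p (k + 1) ≤ ff d p (k + 1) + QQ p (k + 1) (h2 (d := d)) +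
      Ex p (k + 1) (fun s : St d => ((s.2 ∩ nb {0}).card : ℝ)) +
      q ^ 2 / 2 * (zz d p k * (2 * d) ^ 2 + RR p k (T (T (h2 (d := d)))))

-- deps: MOM TWO SOL RW LEV
def S_FRESH : Prop := ∀ (d : ℕ) (p : ℕ → ℝ) (q : ℝ), 1 ≤ d → Pr p q → ∀ K,
  aa d p K * (2 * d - 5 / 2 * (q * (2 * d)) ^ 2 - 3 * sig d q K) - q * (2 * d) ≤
    ∑ k ∈ range (K + 1), ff d p k

-- deps: MOM SIG FRESH
def S_PHASE : Prop := ∃ (C : ℝ) (d0 : ℕ), ∀ d ≥ d0, ∃ (p : ℕ → ℝ) (q : ℝ) (L : ℕ), Pr p q ∧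
  (∀ k, p k = 1 / (2 * d - 4) ∨ p k = 1 / (2 * d + 2)) ∧ (2 * (d : ℝ)) ^ 3 ≤ aa d p L ∧
  aa d p L * (2 * d - 5 / 2 - C / (2 * d)) ≤ ∑ k ∈ range L, ff d p k

-- deps:
def S_NUM : Prop := ∀ N x : ℝ, 20 ≤ N → N - 4 ≤ x → x ≤ N + 2 →
  1 / x * (Real.log N - 1 / (2 * N) - 30 / N ^ 2) + 1 / N ≤ Real.binEntropy (1 / x)

-- deps:
def S_REACH : Prop := ∀ d k : ℕ, ∃ G : Finset (Finset (Cell d)),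
  (∀ B ∈ G, (0 : Cell d) ∈ B ∧ Cn B) ∧
  ∀ f : Finset (Cell d) → ℝ, Sm k (fun s : St d => f s.1) = ∑ B ∈ G, f B

-- deps: REACH
def S_GF : Prop := ∀ (d k : ℕ) (lam z : ℝ), 0 ≤ lam → 0 ≤ z → lam * z < 1 → RB d lam →
  Sm k (fun s : St d => z ^ s.1.card) ≤ 1 / (1 - lam * z) ^ 2

-- deps: GIB MOM PHASE NUM GF
def S_LOW : Prop := ∃ (C : ℝ) (d0 : ℕ), ∀ d ≥ d0, ∀ lam : ℝ, 0 < lam → RB d lam →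
  (2 * d - 3) * Real.exp 1 - C / d ≤ lam

-- deps:
def S_CONN : Prop := ∀ (d : ℕ) (B : Finset (Cell d)), B.Nonempty → (Conn B ↔ Cn B)

-- deps: CONN
def S_ROOT : Prop := ∀ (d : ℕ) (lam : ℝ), (∀ n, (poly d n).Finite) →
  (∀ n, ((poly d n).ncard : ℝ) ≤ lam ^ n) → RB d lam

-- deps: CONN
def S_SUP : Prop := ∀ d : ℕ, 1 ≤ d → (∀ n, (poly d n).Finite) →
  1 ≤ (poly d 1).ncard ∧ ∀ m n, (poly d m).ncard * (poly d n).ncard ≤ (poly d (m + n)).ncard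

-- deps:
def S_FEK : Prop := ∀ (t : ℕ → ℕ) (U : ℝ), 1 ≤ t 1 → (∀ m n, t m * t n ≤ t (m + n)) →
  (∀ n, 1 ≤ n → (t n : ℝ) ≤ U ^ n) → t 0 ≤ 1 →
  ∃ l : ℝ, 1 ≤ l ∧ l ≤ U ∧ (∀ n, (t n : ℝ) ≤ l ^ n) ∧
    Tendsto (fun n : ℕ => (t n : ℝ) ^ ((1 : ℝ) / (n : ℝ))) atTop (𝓝 l)

-- deps:
def S_UP : Prop := ∃ C : ℝ, ∀ d : ℕ, 1 ≤ d → ∀ n : ℕ, (poly d n).Finite ∧
  ((poly d n).ncard : ℝ) ≤ ((2 * d - 3) * Real.exp 1 + C / d) ^ n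

end Pool.Agent.P.MP_d1c5d3_co.PL
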