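import Pool.Agent.P.MP_d1c5d3_co.PL.Iface

/-! Step CONN. -/

set_option autoImplicit false

namespace Pool.Agent.P.MP_d1c5d3_co.PL

open Finset Filter Topology

theorem conn_norm {d : ℕ} (t : Dir d) : ∑ i, |u t i| = 1 := by
  obtain ⟨j, b⟩ := t
  rw [sum_eq_single j (fun i _ h => by simp [u, h]) (by simp)]
  cases b <;> simp [u]

theorem conn_step {d : ℕ} (x y : Cell d) : ∑ i, |x i - y i| = 1 ↔ ∃ t : Dir d, y = x + u t := by
  constructor
  · intro h
    obtain ⟨i, hi⟩ : ∃ i, |x i - y i| ≠ 0 := by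
      by_contra h0
      push Not at h0
      simp [h0] at h
    have h1 := add_sum_erase univ (fun i => |x i - y i|) (mem_univ i)
    have h2 : 0 ≤ ∑ j ∈ univ.erase i, |x j - y j| := sum_nonneg fun _ _ => abs_nonneg _
    have h3 := abs_nonneg (x i - y i)
    have h4 : ∑ j ∈ univ.erase i, |x j - y j| = 0 := by omega
    have h5 : |x i - y i| = 1 := by omega
    have h6 : ∀ j, j ≠ i → y j = x j := fun j hj => by
      have := (sum_eq_zero_iff_of_nonneg fun _ _ => abs_nonneg _).1 h4 j (by simp [hj])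
      rw [abs_eq_zero] at this
      omega
    refine ⟨(i, decide (y i = x i + 1)), funext fun j => ?_⟩
    by_cases hj : j = i
    · subst hj
      rcases (abs_eq (by norm_num : (0 : ℤ) ≤ 1)).1 h5 with h7 | h7
      · have : ¬ y j = x j + 1 := by omega
        simp only [u, this, decide_false, Pi.add_apply, Pi.single_eq_same]
        simp
        omega
      · have : y j = x j + 1 := by omega
        simp [u, this]
    · simp [u, hj, h6 j hj]
  · rintro ⟨t, rfl⟩
    simpa using conn_norm t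

theorem conn_adj {d : ℕ} (x y : Cell d) :
    (SimpleGraph.fromRel fun x y : Fin d → ℤ => ∑ i, |x i - y i| = 1).Adj x y ↔
      ∃ t : Dir d, y = x + u t := by
  rw [SimpleGraph.fromRel_adj, conn_step, conn_step]
  constructor
  · rintro ⟨_, h | ⟨t, rfl⟩⟩
    · exact h
    · exact ⟨opp t, by rw [u_opp]; abel⟩
  · rintro ⟨t, rfl⟩
    exact ⟨fun h => u_ne_zero t (by simpa using h), Or.inl ⟨t, rfl⟩⟩

theorem p_CONN :
    S_CONN := by
  intro d B hB
  constructor
  · intro h a ha b hb
    have key : ∀ x y : (↑B : Set (Fin d → ℤ)), Relation.ReflTransGen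
        ((SimpleGraph.fromRel fun x y : Fin d → ℤ => ∑ i, |x i - y i| = 1).induce
          (↑B : Set (Fin d → ℤ))).Adj x y → Lk B x.1 y.1 := by
      intro x y hxy
      induction hxy with
      | refl => exact .refl
      | @tail y z _ h ih => exact .tail ih ⟨y.2, z.2, (conn_adj _ _).1 h⟩
    exact key ⟨a, ha⟩ ⟨b, hb⟩ ((SimpleGraph.reachable_iff_reflTransGen _ _).1 (h.1 _ _))
  · intro h
    obtain ⟨r, hr⟩ := hB
    have : Nonempty (↑B : Set (Fin d → ℤ)) := ⟨⟨r, hr⟩⟩
    refine ⟨fun a b => ?_⟩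
    have key : ∀ y, Lk B a.1 y → ∀ hy : y ∈ (↑B : Set (Fin d → ℤ)),
        ((SimpleGraph.fromRel fun x y : Fin d → ℤ => ∑ i, |x i - y i| = 1).induce
          (↑B : Set (Fin d → ℤ))).Reachable a ⟨y, hy⟩ := by
      intro y hy
      induction hy with
      | refl => exact fun _ => .refl _
      | @tail y z _ h ih =>
        exact fun hz => (ih h.1).trans (SimpleGraph.Adj.reachable ((conn_adj y z).2 h.2.2))
    exact key b.1 (h _ a.2 _ b.2) b.2

end Pool.Agent.P.MP_d1c5d3_co.PL
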