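import Pool.Agent.P.MP_d1c5d3_co.PL.Iface

/-! Step DET. -/

set_option autoImplicit false

namespace Pool.Agent.P.MP_d1c5d3_co.PL

open Finset Filter Topology

variable {d : ℕ}

theorem det_mem {a x : Cell d} : x ∈ nb {a} ↔ ∃ t, x = a + u t := by simp [mem_nb]

theorem det_symm {a x : Cell d} (h : x ∈ nb {a}) : a ∈ nb {x} := by
  obtain ⟨t, rfl⟩ := det_mem.1 h
  exact det_mem.2 ⟨opp t, by rw [u_opp]; abel⟩

theorem det_card (a : Cell d) : ((nb {a}).card : ℝ) = 2 * d := by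
  rw [nb, singleton_biUnion, card_image_of_injective _ fun t t' h => u_inj (add_left_cancel h),
    card_univ, card_dir]

theorem det_common (hTWO : S_TWO) {a b : Cell d} (h : a ≠ b) :
    ((nb {a} ∩ nb {b}).card : ℝ) ≤ h2 (a - b) := by
  rw [h2, if_neg (sub_ne_zero.2 h), (hTWO d _).1]
  refine Nat.cast_le.2 (le_trans (card_le_card fun x hx => ?_)
    (card_image_le (f := fun t : Dir d × Dir d => a + u t.1)))
  obtain ⟨t, ht⟩ := det_mem.1 (mem_inter.1 hx).1
  obtain ⟨t', ht'⟩ := det_mem.1 (mem_inter.1 hx).2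
  refine mem_image.2 ⟨(t, opp t'), mem_filter.2 ⟨mem_univ _, ?_⟩, ht.symm⟩
  have : a + u t = b + u t' := ht.symm.trans ht'
  rw [u_opp]
  linear_combination (exp := 1) this

theorem det_one (hTWO : S_TWO) {s : St d} (hs : Inv s) {b : Cell d} (hb : b ∈ s.2) :
    2 * (d : ℝ) ≤ (∑ x ∈ fresh s, if x ∈ nb {b} then 1 else 0) + ∑ w ∈ s.1 \ s.2, h2 (b - w) +
      if b ∈ nb {0} then 1 else 0 := by
  have h1 : nb {b} ⊆ ((fresh s).filter (· ∈ nb {b}) ∪
      (s.1 \ s.2).biUnion fun w => nb {b} ∩ nb {w}) ∪ (nb {b} ∩ {0}) := fun x hx => by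
    by_cases h : x ∈ nb (s.1 \ s.2)
    · obtain ⟨w, hw, t, ht⟩ := mem_nb.1 h
      exact mem_union_left _ (mem_union_right _
        (mem_biUnion.2 ⟨w, hw, mem_inter.2 ⟨hx, det_mem.2 ⟨t, ht⟩⟩⟩))
    by_cases h' : x ∈ s.1
    · exact mem_union_right _ (mem_inter.2 ⟨hx, mem_singleton.2 ((hs.2.2 x h').resolve_right h)⟩)
    · exact mem_union_left _ (mem_union_left _ (mem_filter.2
        ⟨mem_fresh.2 ⟨nb_mono (singleton_subset_iff.2 hb) hx, h', h⟩, hx⟩))
  have h2 := (card_le_card h1).trans ((card_union_le _ _).trans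
    (Nat.add_le_add_right ((card_union_le _ _).trans (Nat.add_le_add_left card_biUnion_le _)) _))
  have h3 := (Nat.cast_le (α := ℝ)).2 h2
  push_cast at h3
  rw [det_card] at h3
  refine h3.trans (add_le_add (add_le_add (sum_boole _ _).ge (sum_le_sum fun w hw => ?_)) ?_)
  · exact det_common hTWO fun e => (mem_sdiff.1 hw).2 (e ▸ hb)
  · split_ifs with h
    · exact_mod_cast (card_le_card inter_subset_right).trans (card_singleton _).le
    · rw [inter_singleton_of_notMem fun h' => h (det_symm h')]; simp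

theorem det_mu (Z : Finset (Cell d)) (x : Cell d) :
    (∑ b ∈ Z, if x ∈ nb {b} then (1 : ℝ) else 0) ≤
      1 + 1 / 2 * pairs Z fun a b => if x ∈ nb {a} ∩ nb {b} then 1 else 0 := by
  have h1 : (pairs Z fun a b => if x ∈ nb {a} ∩ nb {b} then (1 : ℝ) else 0) =
      ∑ a ∈ Z, (if x ∈ nb {a} then (1 : ℝ) else 0) *
        ((∑ b ∈ Z, if x ∈ nb {b} then (1 : ℝ) else 0) - 1) := by
    refine sum_congr rfl fun a ha => ?_
    by_cases h : x ∈ nb {a}
    · rw [← add_sum_erase Z _ ha]; simp [h]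
    · simp [h]
  rw [h1, ← sum_mul, sum_boole]
  generalize (Z.filter fun b => x ∈ nb {b}).card = m
  rcases Nat.lt_or_ge m 2 with h | h
  · interval_cases m <;> norm_num
  · have : (2 : ℝ) ≤ m := by exact_mod_cast h
    nlinarith

theorem det_gs (hTWO : S_TWO) {s : St d} {Y : Finset (Cell d)} (hY : Y ⊆ s.1) {a b : Cell d}
    (h : a ≠ b) : (∑ x ∈ fresh s, if x ∈ nb {a} ∩ nb {b} then (1 : ℝ) else 0) ≤ gs Y a b := by
  have h1 := det_common hTWO h
  rw [sum_boole, gs]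
  split_ifs with hy
  · obtain ⟨y, hy, ha, hb⟩ := hy
    have h2 : y ∈ nb {a} ∩ nb {b} := mem_inter.2 ⟨det_symm ha, det_symm hb⟩
    have h3 : (fresh s).filter (· ∈ nb {a} ∩ nb {b}) ⊆ (nb {a} ∩ nb {b}).erase y := fun x hx =>
      mem_erase.2 ⟨fun e => (mem_fresh.1 (mem_filter.1 hx).1).2.1 (e ▸ hY hy), (mem_filter.1 hx).2⟩
    have h4 := (Nat.cast_le (α := ℝ)).2 (card_le_card h3)
    have h5 := congrArg (Nat.cast : ℕ → ℝ) (card_erase_add_one h2)
    push_cast at h5
    linarith [(hTWO d (a - b)).2]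
  · exact (Nat.cast_le.2 (card_le_card fun x hx => (mem_filter.1 hx).2)).trans h1

theorem p_DET (hTWO : S_TWO) :
    S_DET := by
  intro d s hs Y hY
  have h1 := sum_le_sum fun b (hb : b ∈ s.2) => det_one hTWO hs hb
  rw [sum_const, nsmul_eq_mul, sum_add_distrib, sum_add_distrib, sum_comm, sum_boole,
    filter_mem_eq_inter] at h1
  have h2 := sum_le_sum fun x (_ : x ∈ fresh s) => det_mu s.2 x
  rw [sum_add_distrib, sum_const, nsmul_eq_mul, mul_one, ← mul_sum] at h2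
  have h3 : (∑ x ∈ fresh s, pairs s.2 fun a b => if x ∈ nb {a} ∩ nb {b} then 1 else 0) ≤
      pairs s.2 (gs Y) := by
    unfold pairs
    rw [sum_comm]
    refine sum_le_sum fun a _ => ?_
    rw [sum_comm]
    exact sum_le_sum fun b hb => det_gs hTWO hY (mem_erase.1 hb).1.symm
  linarith

end Pool.Agent.P.MP_d1c5d3_co.PL
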