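import Pool.Agent.P.MP_d1c5d3_co.PL.Iface

/-! Step FRESH. -/

set_option autoImplicit false

namespace Pool.Agent.P.MP_d1c5d3_co.PL

open Finset Filter Topology

theorem fresh_slice {d : ℕ} {q : ℝ} (hq : 0 ≤ q) (K : ℕ) :
    (∑ n ∈ range K, ∑ i ∈ range K, q ^ (n + 2 * i + 3) * T^[n + 2 * i + 3] (h2 (d := d)) 0 ≤
      sig d q K) ∧
    (∑ n ∈ range K, q ^ (n + 3) * T^[n + 3] (h2 (d := d)) 0 ≤ sig d q K) ∧
    ∑ i ∈ range K, q ^ (2 * i + 4) * T^[2 * i + 4] (h2 (d := d)) 0 ≤ sig d q K := by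
  have hn : ∀ n i : ℕ, 0 ≤ q ^ (n + 2 * i + 3) * E d (n + 2 * i + 5) 0 := fun n i =>
    mul_nonneg (pow_nonneg hq _) (E_nonneg _ _)
  have ht : ∀ l : ℕ, q ^ l * T^[l] (h2 (d := d)) 0 ≤ q ^ l * E d (l + 2) 0 := fun l =>
    mul_le_mul_of_nonneg_left (Ti_h2_le l 0) (pow_nonneg hq _)
  have hs : range K ⊆ range (K + 2) := range_subset_range.2 (by omega)
  refine ⟨?_, ?_, ?_⟩
  · refine le_trans (sum_le_sum fun n _ => ?_)
      (sum_le_sum_of_subset_of_nonneg hs fun n _ _ => sum_nonneg fun i _ => hn n i)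
    exact (sum_le_sum fun i _ => ht _).trans
      (sum_le_sum_of_subset_of_nonneg hs fun i _ _ => hn n i)
  · refine le_trans (sum_le_sum fun n _ => ?_)
      (sum_le_sum_of_subset_of_nonneg hs fun n _ _ => sum_nonneg fun i _ => hn n i)
    exact (ht _).trans (single_le_sum (f := fun i => q ^ (n + 2 * i + 3) * E d (n + 2 * i + 5) 0)
      (fun i _ => hn n i) (mem_range.2 (by omega : 0 < K + 2)))
  · refine le_trans ?_ (single_le_sum
      (f := fun n => ∑ i ∈ range (K + 2), q ^ (n + 2 * i + 3) * E d (n + 2 * i + 5) 0)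
      (fun n _ => sum_nonneg fun i _ => hn n i) (mem_range.2 (by omega : 1 < K + 2)))
    refine le_trans (sum_le_sum fun i _ => ?_)
      (sum_le_sum_of_subset_of_nonneg hs fun i _ _ => hn 1 i)
    have := ht (2 * i + 4)
    rwa [show 1 + 2 * i + 3 = 2 * i + 4 by ring, show 1 + 2 * i + 5 = 2 * i + 4 + 2 by ring]

theorem p_FRESH (hMOM : S_MOM) (hTWO : S_TWO) (hSOL : S_SOL) (hRW : S_RW) (hLEV : S_LEV) :
    S_FRESH := by
  intro d p q hd hp K
  obtain ⟨hz0, -, -, -, ho⟩ := hMOM d p q hp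
  obtain ⟨l0, lk⟩ := hLEV d p q hp
  have hq : 0 ≤ q := (hp.2 0).1.trans (hp.2 0).2
  obtain ⟨s1, s2, s3⟩ := fresh_slice (d := d) hq K
  have hTT : ∀ x : Cell d, 0 ≤ T (T h2) x := T_nonneg (T_nonneg h2_nonneg)
  have ha : 0 ≤ aa d p K := sum_nonneg fun k _ => zz_nonneg hp k
  have hw : ∀ l : ℕ, 0 ≤ q ^ l * T^[l] (h2 (d := d)) 0 := fun l =>
    mul_nonneg (pow_nonneg hq _) (Ti_nonneg l h2_nonneg 0)
  have w1 : T^[1] (h2 (d := d)) 0 ≤ 0 :=
    (Ti_h2_le 1 0).trans_eq ((hRW d hd).1 3 (by decide))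
  have w2 : T^[2] (h2 (d := d)) 0 ≤ 2 * d * (2 * d * 2) :=
    T_le (T_le fun x => (hTWO d x).2) 0
  have hQ : ∑ k ∈ range (K + 1), QQ p k (h2 (d := d)) ≤
      aa d p K * (2 * (q * (2 * d)) ^ 2 + 2 * sig d q K) := by
    refine (hSOL d p q hp K h2 h2_nonneg).2.trans (mul_le_mul_of_nonneg_left ?_ ha)
    rw [sum_add_distrib]
    have h1 : ∑ n ∈ range K, q ^ (n + 1) * T^[n + 1] (h2 (d := d)) 0 ≤
        ∑ n ∈ range (K + 2), q ^ (n + 1) * T^[n + 1] (h2 (d := d)) 0 :=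
      sum_le_sum_of_subset_of_nonneg (range_subset_range.2 (by omega)) fun n _ _ => hw _
    rw [sum_range_succ', sum_range_succ'] at h1
    have h3 := mul_le_mul_of_nonneg_left w1 (pow_nonneg hq 1)
    have h4 := mul_le_mul_of_nonneg_left w2 (pow_nonneg hq 2)
    simp only [zero_add, add_assoc, Nat.reduceAdd] at h1
    nlinarith
  have hR : q ^ 2 * ∑ k ∈ range (K + 1), RR p k (T (T (h2 (d := d)))) ≤
      aa d p K * sig d q K := by
    refine (mul_le_mul_of_nonneg_left (hSOL d p q hp K _ hTT).1 (pow_nonneg hq 2)).trans ?_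
    rw [mul_left_comm]
    refine mul_le_mul_of_nonneg_left (le_trans (le_of_eq ?_) s3) ha
    rw [mul_sum]
    refine sum_congr rfl fun i _ => ?_
    have e : T^[2 * i + 4] (h2 (d := d)) = T^[2 * i + 2] (T (T h2)) := rfl
    rw [e]
    ring
  have ho' := ho K
  have hR0 : 0 ≤ RR p K (T (T (h2 (d := d)))) :=
    Ex_nonneg hp K fun s _ => sum_nonneg fun a _ => sum_nonneg fun b _ => hTT _
  have hQ0 : 0 ≤ QQ p 0 (h2 (d := d)) :=
    Ex_nonneg hp 0 fun s _ => sum_nonneg fun a _ => sum_nonneg fun b _ => h2_nonneg _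
  have hO0 : 0 ≤ Ex p 0 (fun s : St d => ((s.2 ∩ nb {0}).card : ℝ)) :=
    Ex_nonneg hp 0 fun s _ => Nat.cast_nonneg _
  have hsum := sum_le_sum fun k (_ : k ∈ range K) => lk k
  simp only [sum_add_distrib, ← mul_sum, ← sum_mul] at hsum
  have a1 : aa d p K = ∑ k ∈ range K, zz d p (k + 1) + 1 := by rw [aa, sum_range_succ', hz0]
  have a2 : ∑ k ∈ range K, zz d p k ≤ aa d p K := by
    rw [aa, sum_range_succ]; linarith [zz_nonneg (d := d) hp K]
  rw [sum_range_succ'] at hQ ho' ⊢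
  rw [sum_range_succ] at hR
  have h5 := mul_le_mul_of_nonneg_left a2 (sq_nonneg (q * (2 * d)))
  have h6 := mul_nonneg (pow_nonneg hq 2) hR0
  have h7 : 0 ≤ aa d p K * sig d q K :=
    mul_nonneg ha (le_trans (sum_nonneg fun n _ => hw _) s2)
  have h8 : 2 * d * aa d p K = 2 * d * ∑ k ∈ range K, zz d p (k + 1) + 2 * d := by
    rw [a1]; ring
  nlinarith

end Pool.Agent.P.MP_d1c5d3_co.PL
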