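import Pool.Agent.P.MP_d1c5d3_co.PL.Iface

/-! Step GF. -/

set_option autoImplicit false

namespace Pool.Agent.P.MP_d1c5d3_co.PL

open Finset Filter Topology

theorem p_GF (hREACH : S_REACH) :
    S_GF := by
  intro d k lam z hl hz hr hRB
  obtain ⟨G, hG, hS⟩ := hREACH d k
  rw [hS fun B => z ^ B.card]
  have hr0 : 0 ≤ lam * z := mul_nonneg hl hz
  have hn : ‖lam * z‖ < 1 := by rwa [Real.norm_eq_abs, abs_of_nonneg hr0]
  rw [← sum_fiberwise_of_maps_to (s := G) (t := G.image card) (g := card)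
    fun B hB => mem_image_of_mem _ hB]
  have h1 : ∀ m ∈ G.image card, ∑ B ∈ G with B.card = m, z ^ B.card ≤
      (m : ℝ) * (lam * z) ^ m := fun m _ => by
    rw [sum_congr rfl (g := fun _ => z ^ m) fun B hB => by rw [(mem_filter.1 hB).2], sum_const,
      nsmul_eq_mul, mul_pow, ← mul_assoc]
    refine mul_le_mul_of_nonneg_right (hRB m _ fun B hB => ?_) (pow_nonneg hz m)
    exact ⟨(mem_filter.1 hB).2, hG B (mem_filter.1 hB).1⟩
  refine (sum_le_sum h1).trans ((sum_le_hasSum _ (fun m _ => by positivity)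
    (hasSum_coe_mul_geometric_of_norm_lt_one hn)).trans ?_)
  exact div_le_div_of_nonneg_right hr.le (sq_nonneg _)

end Pool.Agent.P.MP_d1c5d3_co.PL
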