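import Pool.Agent.P.MP_d1c5d3_co.PL.Iface

/-! Step GIB. -/

set_option autoImplicit false

namespace Pool.Agent.P.MP_d1c5d3_co.PL

open Finset Filter Topology

theorem gib_one (hBIN : S_BIN) {d : ℕ} {p : ℝ} (h0 : 0 < p) (h1 : p < 1) (F : Finset (Cell d))
    (f : Finset (Cell d) → ℝ) :
    Real.exp (Bin p F f + Real.binEntropy p * F.card) ≤ ∑ S ∈ F.powerset, Real.exp (f S) := by
  have q0 : 0 < 1 - p := by linarith
  have hc : Bin p F (fun S => (S.card : ℝ)) = p * F.card := by
    simpa using (hBIN d p F).1 fun _ => 1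
  set m := Bin p F f + Real.binEntropy p * F.card with hm
  have a1 : Bin p F (fun S => Real.exp m * (f S + ((Real.log (1 - p) - Real.log p) * S.card +
      (1 - m - F.card * Real.log (1 - p))))) = Real.exp m := by
    rw [Bin_mul, Bin_add, Bin_add, Bin_mul, Bin_const, hc]
    have : Bin p F f = m - Real.binEntropy p * F.card := by rw [hm]; ring
    rw [this, Real.binEntropy, Real.log_inv, Real.log_inv]
    ring
  rw [← a1, Bin]
  refine sum_le_sum fun S hS => ?_
  have hle := card_le_card (mem_powerset.1 hS)
  have w0 : 0 < p ^ S.card * (1 - p) ^ (F.card - S.card) := by positivity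
  have a2 : Real.log (p ^ S.card * (1 - p) ^ (F.card - S.card)) =
      S.card * Real.log p + (F.card - S.card) * Real.log (1 - p) := by
    rw [Real.log_mul (by positivity) (by positivity), Real.log_pow, Real.log_pow, Nat.cast_sub hle]
  generalize p ^ S.card * (1 - p) ^ (F.card - S.card) = w at w0 a2
  have a3 := Real.add_one_le_exp (f S - Real.log w - m)
  have a4 : Real.exp (f S) = w * (Real.exp m * Real.exp (f S - Real.log w - m)) := by
    rw [← Real.exp_add, ← Real.exp_log w0, ← Real.exp_add, Real.log_exp]; congr 1; ring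
  rw [a4]
  refine mul_le_mul_of_nonneg_left (mul_le_mul_of_nonneg_left (le_trans (le_of_eq ?_) a3)
    (Real.exp_pos _).le) w0.le
  rw [a2]; ring

theorem p_GIB (hBIN : S_BIN) :
    S_GIB := by
  intro d p hp k
  induction k with
  | zero => intro g; simp [Ex, Sm]
  | succ k ih =>
    intro g
    have := ih fun s => Bin (p k) (fresh s) (fun S => g (step s S)) +
      Real.binEntropy (p k) * (fresh s).card
    rw [Ex_add, Ex_mul] at this
    rw [Sm_succ, Ex_succ, sum_range_succ]
    refine le_trans (le_of_eq ?_) (this.trans (Sm_mono k fun s =>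
      gib_one hBIN (hp k).1 (hp k).2 _ fun S => g (step s S)))
    rw [ff]; congr 1; ring

end Pool.Agent.P.MP_d1c5d3_co.PL
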