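import Pool.Agent.P.MP_d1c5d3_co.PL.Iface

/-! Step LOW. -/

set_option autoImplicit false

namespace Pool.Agent.P.MP_d1c5d3_co.PL

open Finset Filter Topology

theorem low_num {N C lam z a : ℝ} (hN : 20 ≤ N) (hl : 0 < lam) (hz : z = (1 - 1 / N ^ 2) / lam)
    (ha : N ^ 3 ≤ a)
    (h : Real.log z * a + ((Real.log N - 1 / (2 * N) - 30 / N ^ 2) * (a - 1) +
      1 / N * (a * (N - 5 / 2 - C / N))) ≤ 4 * Real.log N) :
    (N - 3) * Real.exp 1 - (37 + C) * Real.exp 1 / N ≤ lam := by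
  have hN0 : 0 < N := by linarith
  have hi : 1 / N ^ 2 ≤ 1 / 2 := one_div_le_one_div_of_le (by norm_num) (by nlinarith)
  have hi0 : 0 < 1 / N ^ 2 := by positivity
  have h1 : -(2 * (1 / N ^ 2)) ≤ Real.log (1 - 1 / N ^ 2) := by
    refine le_trans ?_ (Real.one_sub_inv_le_log_of_pos (by linarith))
    have : (1 - 1 / N ^ 2)⁻¹ ≤ 1 + 2 * (1 / N ^ 2) := by
      rw [inv_le_iff_one_le_mul₀ (by linarith)]
      nlinarith
    linarith
  have h2 : Real.log z = Real.log (1 - 1 / N ^ 2) - Real.log lam := by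
    rw [hz, Real.log_div (by linarith) hl.ne']
  have h3 : Real.log N ≤ N := (Real.log_le_sub_one_of_pos hN0).trans (by linarith)
  have ha0 : 0 < a := lt_of_lt_of_le (by positivity) ha
  have h4 : N ≤ a * (1 / N ^ 2) := by
    rw [mul_one_div, le_div_iff₀ (by positivity)]
    linarith
  have h5 : 1 / N * (N - 5 / 2 - C / N) = 1 - 5 / 2 * (1 / N) - C * (1 / N ^ 2) := by
    field_simp
  have h6 : 1 / (2 * N) = 1 / 2 * (1 / N) := by field_simp
  have h7 : 30 / N ^ 2 = 30 * (1 / N ^ 2) := by ring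
  have h8 : 0 < 1 / N := by positivity
  have h9 : Real.log z + Real.log N + 1 - 3 * (1 / N) - (35 + C) * (1 / N ^ 2) ≤ 0 := by
    rw [mul_left_comm, h5, h6, h7] at h
    refine le_of_mul_le_mul_left ?_ ha0
    nlinarith
  have h10 : Real.log N + (1 + -(3 * (1 / N) + (37 + C) * (1 / N ^ 2))) ≤ Real.log lam := by
    linarith
  have h11 := Real.exp_le_exp.2 h10
  rw [Real.exp_log hl, Real.exp_add, Real.exp_add, Real.exp_log hN0] at h11
  refine le_trans ?_ h11
  have h12 := Real.add_one_le_exp (-(3 * (1 / N) + (37 + C) * (1 / N ^ 2)))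
  have h13 : (N - 3) * Real.exp 1 - (37 + C) * Real.exp 1 / N =
      N * (Real.exp 1 * (-(3 * (1 / N) + (37 + C) * (1 / N ^ 2)) + 1)) := by
    field_simp
    ring
  rw [h13]
  gcongr

theorem p_LOW (hGIB : S_GIB) (hMOM : S_MOM) (hPHASE : S_PHASE) (hNUM : S_NUM) (hGF : S_GF) :
    S_LOW := by
  obtain ⟨C, d0, hP⟩ := hPHASE
  refine ⟨(37 + C) * Real.exp 1 / 2, max d0 10, fun d hd lam hl hR => ?_⟩
  obtain ⟨p, q, L, hp, hv, ha, hf⟩ := hP d (le_of_max_le_left hd)
  have hd10 : (10 : ℝ) ≤ d := by exact_mod_cast le_of_max_le_right hd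
  obtain ⟨z0, zs, -, hA, -⟩ := hMOM d p q hp
  rw [div_div]
  generalize hNd : 2 * (d : ℝ) = N at *
  have hN : 20 ≤ N := by linarith
  have hi : 1 / N ^ 2 < 1 := by rw [div_lt_one (by positivity)]; nlinarith
  have hi0 : 0 < 1 / N ^ 2 := by positivity
  set z : ℝ := (1 - 1 / N ^ 2) / lam with hz
  have hz0 : 0 < z := div_pos (by linarith) hl
  have hlz : lam * z = 1 - 1 / N ^ 2 := by rw [hz]; field_simp
  have hx : ∀ k, ∃ x, N - 4 ≤ x ∧ x ≤ N + 2 ∧ p k = 1 / x := fun k =>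
    (hv k).elim (fun h => ⟨_, le_rfl, by linarith, h⟩) fun h => ⟨_, by linarith, le_rfl, h⟩
  have hp01 : ∀ k, 0 < p k ∧ p k < 1 := fun k => by
    obtain ⟨x, h1, -, h3⟩ := hx k
    have : 0 < x := by linarith
    rw [h3]
    exact ⟨by positivity, by rw [div_lt_one this]; linarith⟩
  have h1 := hGIB d p hp01 L fun s => Real.log z * s.1.card
  have h2 := hGF d L lam z hl.le hz0.le (by linarith) hR
  have h3 : (fun s : St d => Real.exp (Real.log z * s.1.card)) = fun s => z ^ s.1.card := by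
    funext s
    rw [mul_comm, Real.exp_nat_mul, Real.exp_log hz0]
  have h4 : 1 / (1 - lam * z) ^ 2 = Real.exp (4 * Real.log N) := by
    rw [hlz, show (4 : ℝ) = (4 : ℕ) by norm_num, Real.exp_nat_mul, Real.exp_log (by linarith)]
    field_simp
    ring
  rw [h3, Ex_mul, hA] at h1
  have h5 := Real.exp_le_exp.1 (h1.trans (h2.trans_eq h4))
  refine low_num hN hl hz ha (le_trans (add_le_add_right ?_ _) h5)
  have h6 : aa d p L - 1 = ∑ k ∈ range L, zz d p (k + 1) := by
    rw [aa, sum_range_succ', z0]; ring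
  refine le_trans (add_le_add_right (mul_le_mul_of_nonneg_left hf (by positivity)) _) ?_
  rw [h6, mul_sum, mul_sum, ← sum_add_distrib]
  refine sum_le_sum fun k _ => ?_
  obtain ⟨x, x1, x2, x3⟩ := hx k
  have h7 := mul_le_mul_of_nonneg_left (hNUM N x hN x1 x2)
    (Ex_nonneg hp k fun (s : St d) _ => Nat.cast_nonneg (fresh s).card)
  rw [zs, x3]
  change ff d p k * _ ≤ ff d p k * _ at h7
  linarith

end Pool.Agent.P.MP_d1c5d3_co.PL
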