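import Pool.Agent.P.MP_d1c5d3_co.PL.Iface

/-! Step MOM. -/

set_option autoImplicit false

namespace Pool.Agent.P.MP_d1c5d3_co.PL

open Finset Filter Topology

theorem mom_bin (hBIN : S_BIN) {d : ℕ} (p : ℝ) (F : Finset (Cell d)) :
    Bin p F (fun S => (S.card : ℝ)) = p * F.card := by
  simpa using (hBIN d p F).1 fun _ => 1

theorem mom_nb {d : ℕ} (Z : Finset (Cell d)) : ((nb Z).card : ℝ) ≤ 2 * d * Z.card := by
  have h1 : (nb Z).card ≤ ∑ _z ∈ Z, Fintype.card (Dir d) :=
    card_biUnion_le.trans (sum_le_sum fun z _ => card_image_le.trans_eq card_univ)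
  have h2 : ((nb Z).card : ℝ) ≤ Z.card * (Fintype.card (Dir d) : ℝ) := by
    rw [sum_const, smul_eq_mul] at h1
    exact_mod_cast h1
  rw [card_dir] at h2
  linarith

theorem p_MOM (hBIN : S_BIN) :
    S_MOM := by
  intro d p q hp
  have h0 : zz d p 0 = 1 := by simp [zz, Ex, s0]
  have h1 : ∀ k, zz d p (k + 1) = p k * ff d p k := by
    intro k
    rw [zz, ff, Ex_succ, ← Ex_mul]
    exact Ex_congr p k fun s _ => mom_bin hBIN _ _
  have h2 : ∀ k, ff d p k ≤ 2 * d * zz d p k := by
    intro k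
    rw [zz, ff, ← Ex_mul]
    refine Ex_mono hp k fun s _ => le_trans ?_ (mom_nb s.2)
    exact_mod_cast card_le_card (fresh_sub s)
  have q0 : 0 ≤ q := (hp.2 0).1.trans (hp.2 0).2
  have d0 : (0 : ℝ) ≤ 2 * d := by positivity
  refine ⟨h0, h1, h2, fun k => ?_, fun K => ?_⟩
  · induction k with
    | zero => simp [aa, zz, Ex, s0]
    | succ k ih =>
      rw [aa_succ, ← ih, zz, Ex_succ, Ex_succ, ← Ex_add]
      refine Ex_congr p k fun s _ => ?_
      rw [← Bin_const (p k) (s.1.card : ℝ) (fresh s), ← Bin_add]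
      refine Bin_congr _ fun S hS => ?_
      have : Disjoint s.1 S := disjoint_right.2 fun x hx => (mem_fresh.1 (hS hx)).2.1
      simp only [step, card_union_of_disjoint this, Nat.cast_add]
  · have a0 : Ex p 0 (fun s : St d => ((s.2 ∩ nb {0}).card : ℝ)) = 0 := by
      show ((({0} : Finset (Cell d)) ∩ nb {0}).card : ℝ) = 0
      rw [Nat.cast_eq_zero, card_eq_zero, ← disjoint_iff_inter_eq_empty, disjoint_singleton_left]
      intro h
      obtain ⟨z, hz, t, ht⟩ := mem_nb.1 h
      rw [mem_singleton.1 hz, zero_add] at ht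
      exact u_ne_zero t ht.symm
    have a1 : Ex p 1 (fun s : St d => ((s.2 ∩ nb {0}).card : ℝ)) ≤ q * (2 * d) := by
      have b1 : Ex p 1 (fun s : St d => ((s.2 ∩ nb {0}).card : ℝ)) ≤ zz d p 1 :=
        Ex_mono hp 1 fun s _ => by exact_mod_cast card_le_card inter_subset_left
      have b2 := h2 0
      rw [h0, mul_one] at b2
      rw [h1 0] at b1
      exact b1.trans ((mul_le_mul_of_nonneg_left b2 (hp.2 0).1).trans
        (mul_le_mul_of_nonneg_right (hp.2 0).2 d0))
    have a2 : ∀ k, Ex p (k + 2) (fun s : St d => ((s.2 ∩ nb {0}).card : ℝ)) = 0 := by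
      intro k
      rw [Ex_succ, Ex_succ, ← Ex_const (d := d) p k 0]
      refine Ex_congr p k fun s hs => ?_
      rw [← Bin_const (p k) 0 (fresh s)]
      refine Bin_congr _ fun S hS => ?_
      rw [← Bin_const (p (k + 1)) 0 (fresh (step s S))]
      refine Bin_congr _ fun S' hS' => ?_
      show ((S' ∩ nb {0}).card : ℝ) = 0
      rw [Nat.cast_eq_zero, card_eq_zero, ← disjoint_iff_inter_eq_empty, disjoint_left]
      intro x hx hx'
      refine (mem_fresh.1 (hS' hx)).2.2 ?_
      rw [step_sdiff hS]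
      exact nb_mono (singleton_subset_iff.2 hs.2.1) hx'
    rcases K with _ | K
    · rw [zero_add, sum_range_one, a0]
      exact mul_nonneg q0 d0
    · rw [sum_range_succ', sum_range_succ', a0, sum_eq_zero fun k _ => a2 k]
      simpa using a1

end Pool.Agent.P.MP_d1c5d3_co.PL
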