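import Pool.Agent.P.MP_d1c5d3_co.PL.Iface

/-! Step NBS. -/

set_option autoImplicit false

namespace Pool.Agent.P.MP_d1c5d3_co.PL

open Finset Filter Topology

theorem nbs_one {d : ℕ} {Z F : Finset (Cell d)} (hF : F ⊆ nb Z) {G : Cell d → ℝ}
    (hG : ∀ x, 0 ≤ G x) : ∑ x ∈ F, G x ≤ ∑ a ∈ Z, ∑ t : Dir d, G (a + u t) := by
  rw [← sum_product' (f := fun a t => G (a + u t))]
  refine le_trans (sum_le_sum_of_subset_of_nonneg (t := (Z ×ˢ univ).image
    fun x : Cell d × Dir d => x.1 + u x.2) (fun x hx => ?_) fun x _ _ => hG x)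
    (sum_image_le_of_nonneg fun x _ => hG x)
  obtain ⟨z, hz, t, rfl⟩ := mem_nb.1 (hF hx)
  exact mem_image.2 ⟨(z, t), by simp [hz], rfl⟩

theorem nbs_two {d : ℕ} {Z F : Finset (Cell d)} (hF : F ⊆ nb Z) {g G : Cell d → Cell d → ℝ}
    (hG : ∀ x y, 0 ≤ G x y) (hg : ∀ x y, y ≠ x → g x y ≤ G x y) {c : ℝ}
    {H : Cell d → Cell d → ℝ}
    (hc : ∀ a ∈ Z, ∑ t : Dir d, ∑ t' : Dir d, G (a + u t) (a + u t') ≤ c)
    (hH : ∀ a b, ∑ t : Dir d, ∑ t' : Dir d, G (a + u t) (b + u t') ≤ H a b) :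
    pairs F g ≤ Z.card * c + pairs Z H := by
  calc pairs F g ≤ ∑ x ∈ F, ∑ b ∈ Z, ∑ t' : Dir d, G x (b + u t') := by
        refine sum_le_sum fun x _ => le_trans ?_ (nbs_one hF (hG x))
        exact (sum_le_sum fun y hy => hg x y (ne_of_mem_erase hy)).trans
          (sum_le_sum_of_subset_of_nonneg (erase_subset _ _) fun y _ _ => hG x y)
    _ ≤ ∑ a ∈ Z, ∑ t : Dir d, ∑ b ∈ Z, ∑ t' : Dir d, G (a + u t) (b + u t') :=
        nbs_one hF fun x => sum_nonneg fun _ _ => sum_nonneg fun _ _ => hG _ _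
    _ ≤ ∑ a ∈ Z, (c + ∑ b ∈ Z.erase a, H a b) := by
        refine sum_le_sum fun a ha => ?_
        rw [sum_comm, ← add_sum_erase _ _ ha]
        exact add_le_add (hc a ha) (sum_le_sum fun b _ => hH a b)
    _ = _ := by rw [sum_add_distrib, sum_const, nsmul_eq_mul, pairs]

theorem nbs_TT {d : ℕ} (h : Cell d → ℝ) (a b : Cell d) :
    ∑ t : Dir d, ∑ t' : Dir d, h (a + u t - (b + u t')) = T (T h) (a - b) := by
  refine sum_congr rfl fun t _ => ?_
  rw [T, ← sum_opp]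
  exact sum_congr rfl fun t' _ => by rw [u_opp]; congr 1; abel

theorem nbs_h2 {d : ℕ} (t t' : Dir d) : 1 ≤ E d 2 (u t - u t') := by
  rw [E_succ]
  refine le_trans ?_ (single_le_sum (fun s _ => E_nonneg 1 (u t - u t' + u s)) (mem_univ t'))
  rw [sub_add_cancel, E_succ]
  refine le_trans ?_ (single_le_sum (fun s _ => E_nonneg 0 (u t + u s)) (mem_univ (opp t)))
  simp [E, u_opp]

theorem p_NBS :
    S_NBS := by
  intro d Z F hF
  refine ⟨fun h h0 => ⟨fun w => ?_, ?_⟩, ?_⟩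
  · refine (nbs_one hF fun x => h0 (x - w)).trans_eq (sum_congr rfl fun a _ => ?_)
    exact sum_congr rfl fun t _ => by congr 1; abel
  · exact nbs_two hF (fun x y => h0 (x - y)) (fun _ _ _ => le_rfl)
      (fun a _ => by rw [nbs_TT, sub_self]) fun a b => (nbs_TT h a b).le
  · refine nbs_two hF (G := fun x y => min (gs Z x y) (h2 (x - y))) (fun x y => ?_)
      (fun x y hxy => le_min le_rfl ?_) (fun a ha => ?_) fun a b => ?_
    · refine le_min ?_ (h2_nonneg _)
      unfold gs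
      split_ifs
      · exact zero_le_one
      · exact h2_nonneg _
    · unfold gs
      split_ifs with h
      · obtain ⟨z, -, h1, h3⟩ := h
        obtain ⟨z1, e1, t, rfl⟩ := mem_nb.1 h1
        obtain ⟨z2, e2, t', rfl⟩ := mem_nb.1 h3
        rw [mem_singleton] at e1 e2
        subst e1 e2
        rw [h2, if_neg (sub_ne_zero.2 hxy.symm), add_sub_add_left_eq_sub]
        exact nbs_h2 t t'
      · exact le_rfl
    · refine (sum_le_card_nsmul _ _ (2 * d : ℝ) fun t _ => (sum_le_card_nsmul _ _ 1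
        fun t' _ => (min_le_left _ _).trans_eq ?_).trans_eq ?_).trans_eq ?_
      · exact if_pos ⟨a, ha, mem_nb.2 ⟨a, mem_singleton_self a, t, rfl⟩,
          mem_nb.2 ⟨a, mem_singleton_self a, t', rfl⟩⟩
      · rw [nsmul_eq_mul, card_univ, card_dir, mul_one]
      · rw [nsmul_eq_mul, card_univ, card_dir, sq]
    · rw [← nbs_TT]
      exact sum_le_sum fun _ _ => sum_le_sum fun _ _ => min_le_right _ _

end Pool.Agent.P.MP_d1c5d3_co.PL
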