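import Pool.Agent.P.MP_d1c5d3_co.PL.Iface

/-! Step NUM. -/

set_option autoImplicit false

namespace Pool.Agent.P.MP_d1c5d3_co.PL

open Finset Filter Topology

theorem p_NUM :
    S_NUM := by
  intro N x hN h1 h2
  have hN0 : 0 < N := by linarith
  have hx0 : 0 < x := by linarith
  have hx1 : 0 < x - 1 := by linarith
  have hx2 : 0 < 2 * x - 1 := by linarith
  have a1 : 1 - N / x ≤ Real.log x - Real.log N := by
    have := Real.one_sub_inv_le_log_of_pos (div_pos hx0 hN0)
    rwa [inv_div, Real.log_div hx0.ne' hN0.ne'] at this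
  have a2 : 1 - 1 / (2 * x - 1) ≤ (x - 1) * Real.log (1 - 1 / x)⁻¹ := by
    have h := Real.le_log_one_add_of_nonneg (x := 1 / (x - 1)) (by positivity)
    have e1 : (1 - 1 / x)⁻¹ = 1 + 1 / (x - 1) := by field_simp; ring
    have e2 : 1 - 1 / (2 * x - 1) = (x - 1) * (2 * (1 / (x - 1)) / (1 / (x - 1) + 2)) := by
      have : 1 / (x - 1) + 2 = (2 * x - 1) / (x - 1) := by field_simp; ring
      rw [this]; field_simp; ring
    rw [e1, e2]
    exact mul_le_mul_of_nonneg_left h hx1.le
  have a3 : x / N + N / x - 2 ≤ 20 / N ^ 2 := by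
    have e : x / N + N / x - 2 = (x - N) ^ 2 / (x * N) := by field_simp; ring
    rw [e, div_le_div_iff₀ (by positivity) (by positivity)]
    have : (x - N) ^ 2 ≤ 16 := by nlinarith
    have h3 : 16 * N ≤ 20 * x := by linarith
    nlinarith [mul_le_mul_of_nonneg_right this (sq_nonneg N), mul_le_mul_of_nonneg_right h3 hN0.le]
  have a4 : 1 / (2 * x - 1) - 1 / (2 * N) ≤ 3 / N ^ 2 := by
    have e : 1 / (2 * x - 1) - 1 / (2 * N) = (2 * N - 2 * x + 1) / ((2 * x - 1) * (2 * N)) := by
      field_simp; ring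
    rw [e, div_le_div_iff₀ (by positivity) (by positivity)]
    have : 2 * N - 2 * x + 1 ≤ 9 := by linarith
    have h3 : 9 * N ≤ 6 * (2 * x - 1) := by linarith
    nlinarith [mul_le_mul_of_nonneg_right this (sq_nonneg N), mul_le_mul_of_nonneg_right h3 hN0.le]
  have a5 : (23 : ℝ) / N ^ 2 ≤ 30 / N ^ 2 := by gcongr; norm_num
  have a6 : (23 : ℝ) / N ^ 2 = 20 / N ^ 2 + 3 / N ^ 2 := by ring
  have key : Real.log N - 1 / (2 * N) - 30 / N ^ 2 + x / N ≤
      Real.log x + (x - 1) * Real.log (1 - 1 / x)⁻¹ := by linarith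
  have e : Real.binEntropy (1 / x) =
      1 / x * (Real.log x + (x - 1) * Real.log (1 - 1 / x)⁻¹) := by
    rw [Real.binEntropy, one_div, inv_inv]; field_simp
  have e' : 1 / N = 1 / x * (x / N) := by field_simp
  rw [e, e', ← mul_add]
  exact mul_le_mul_of_nonneg_left key (by positivity)

end Pool.Agent.P.MP_d1c5d3_co.PL
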