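import Pool.Agent.P.MP_d1c5d3_co.PL.Iface

/-! Step PHASE. -/

set_option autoImplicit false

namespace Pool.Agent.P.MP_d1c5d3_co.PL

open Finset Filter Topology

theorem phase_len {N : ℝ} (hN : 256 ≤ N) : ∃ L : ℕ, 1 ≤ L ∧ N ^ 3 ≤ ((N - 3) / (N - 4)) ^ L ∧
    ∀ K ≤ 2 * L, (K : ℝ) ≤ N ^ 5 ∧ (1 / (N - 4) * N) ^ K ≤ N ^ 25 := by
  have h4 : 0 < N - 4 := by linarith
  have hθ : (N - 3) / (N - 4) = 1 + 1 / (N - 4) := by field_simp; ring
  have he : 0 < 1 / (N - 4) := by positivity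
  have he1 : 1 / (N - 4) ≤ 1 := by rw [div_le_one h4]; linarith
  have hg : 1 / (N - 4) * N = 1 + 4 * (1 / (N - 4)) := by field_simp; ring
  rw [hθ, hg]
  have hinv : 1 / (N - 4) * (N - 4) = 1 := by field_simp
  generalize 1 / (N - 4) = e at *
  have hN1 : 1 ≤ N := by linarith
  obtain ⟨n, h1, h2⟩ := exists_nat_pow_near (one_le_pow₀ hN1 : 1 ≤ N ^ 3) (by linarith : 1 < 1 + e)
  refine ⟨n + 1, by omega, h2.le, fun K hK => ⟨?_, ?_⟩⟩
  · have hb := (one_add_mul_le_pow (by linarith : -2 ≤ e) n).trans h1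
    have h5 : (n : ℝ) ≤ N ^ 3 * (N - 4) := by
      have : (n : ℝ) * e * (N - 4) ≤ N ^ 3 * (N - 4) :=
        mul_le_mul_of_nonneg_right (by linarith) h4.le
      rwa [mul_assoc, hinv, mul_one] at this
    have h6 : (K : ℝ) ≤ 2 * (n + 1) := by exact_mod_cast hK
    have h7 : 1 ≤ N ^ 3 := one_le_pow₀ hN1
    have h8 : 0 ≤ N ^ 4 := by positivity
    nlinarith
  · have hb : 1 + 4 * e ≤ (1 + e) ^ 4 := by
      exact_mod_cast one_add_mul_le_pow (by linarith : -2 ≤ e) 4
    have h5 : (1 + e) ^ (n + 1) ≤ 2 * N ^ 3 := by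
      rw [pow_succ]
      have : 0 ≤ (1 + e) ^ n := by positivity
      nlinarith
    calc (1 + 4 * e) ^ K ≤ (1 + 4 * e) ^ (2 * (n + 1)) := pow_le_pow_right₀ (by linarith) hK
      _ ≤ ((1 + e) ^ 4) ^ (2 * (n + 1)) := pow_le_pow_left₀ (by linarith) hb _
      _ = ((1 + e) ^ (n + 1)) ^ 8 := by rw [← pow_mul, ← pow_mul]; congr 1; ring
      _ ≤ (2 * N ^ 3) ^ 8 := pow_le_pow_left₀ (by positivity) h5 _
      _ = 256 * N ^ 24 := by ring
      _ ≤ N * N ^ 24 := mul_le_mul_of_nonneg_right hN (by positivity)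
      _ = N ^ 25 := by ring

theorem p_PHASE (hMOM : S_MOM) (hSIG : S_SIG) (hFRESH : S_FRESH) :
    S_PHASE := by
  obtain ⟨C0, hC⟩ := hSIG
  refine ⟨28 + 3 * |C0|, 153 + ⌈3 * |C0|⌉₊, fun d hd => ?_⟩
  have hC0 := abs_nonneg C0
  have hdN : (153 : ℝ) + 3 * |C0| ≤ d := by
    have : ((153 + ⌈3 * |C0|⌉₊ : ℕ) : ℝ) ≤ d := by exact_mod_cast hd
    push_cast at this
    linarith [Nat.le_ceil (3 * |C0|)]
  have hd1 : 1 ≤ d := by omega
  have hC' := fun q K => hC d q K hd1
  have hF := fun p q => hFRESH d p q hd1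
  have hM := hMOM d
  generalize hNd : 2 * (d : ℝ) = N at *
  have hN : 306 + 6 * |C0| ≤ N := by linarith
  have hN0 : 0 < N := by linarith
  have h4 : 0 < N - 4 := by linarith
  obtain ⟨L, hL1, hL2, hL3⟩ := phase_len (by linarith : 256 ≤ N)
  set q : ℝ := 1 / (N - 4) with hq
  set θ : ℝ := (N - 3) / (N - 4) with hθ
  set p : ℕ → ℝ := fun k => if k < L then q else 1 / (N + 2) with hp
  have hq0 : 0 < q := by positivity
  have hqN : q * (N - 4) = 1 := by rw [hq]; field_simp
  have hθq : θ = q * (N - 3) := by rw [hθ, hq]; ring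
  have hθ0 : 0 < θ := by rw [hθq]; exact mul_pos hq0 (by linarith)
  have hq1 : q ≤ 1 / 100 := by rw [hq]; exact one_div_le_one_div_of_le (by norm_num) (by linarith)
  have hP : Pr p q := by
    refine ⟨by linarith, fun k => ?_⟩
    simp only [hp]
    split_ifs
    · exact ⟨hq0.le, le_rfl⟩
    · exact ⟨by positivity, one_div_le_one_div_of_le h4 (by linarith)⟩
  obtain ⟨z0, zs, fz, -, -⟩ := hM p q hP
  have hg : q * N = 1 + 4 * q := by linarith
  have hg2 : (q * N) ^ 2 ≤ 1 + 10 / N := by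
    have h1 : q ≤ 1.1 / N := by
      rw [hq, div_le_div_iff₀ h4 hN0]; linarith
    have h2 : (1.1 : ℝ) / N = 0.11 * (10 / N) := by ring
    rw [hg]; nlinarith
  have ha : ∀ K, 0 ≤ aa d p K := fun K => sum_nonneg fun k _ => zz_nonneg hP k
  have hFK : ∀ K ≤ 2 * L, aa d p K * (N - 5 / 2 - (25 + 3 * |C0|) / N) - q * N ≤
      ∑ k ∈ range (K + 1), ff d p k := by
    intro K hK
    refine le_trans (sub_le_sub_right (mul_le_mul_of_nonneg_left ?_ (ha K)) _) (hF p q hP K)
    have h1 := hC' q K (by linarith) (by linarith) (hL3 K hK).1 (hL3 K hK).2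
    have h2 : C0 / N ≤ |C0| / N := div_le_div_of_nonneg_right (le_abs_self _) hN0.le
    have h3 : (25 + 3 * |C0|) / N = 5 / 2 * (10 / N) + 3 * (|C0| / N) := by ring
    linarith
  have hhalf : (25 + 3 * |C0|) / N ≤ 1 / 2 := by rw [div_le_iff₀ hN0]; linarith
  have hgrow : ∀ K ≤ L, θ ^ K ≤ aa d p K := by
    intro K
    induction K with
    | zero => intro _; simp [aa, z0]
    | succ K ih =>
      intro hK
      have h1 : aa d p (K + 1) = q * ∑ k ∈ range (K + 1), ff d p k + 1 := by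
        rw [aa, sum_range_succ', z0, mul_sum]
        congr 1
        refine sum_congr rfl fun k hk => ?_
        have : k < L := by have := mem_range.1 hk; omega
        rw [zs]; simp only [hp, this, if_true]
      have h2 := mul_le_mul_of_nonneg_left (hFK K (by omega)) hq0.le
      have h3 := mul_le_mul_of_nonneg_left
        (by linarith : N - 3 ≤ N - 5 / 2 - (25 + 3 * |C0|) / N) (mul_nonneg hq0.le (ha K))
      have h5 := mul_le_mul_of_nonneg_left (ih (by omega)) hθ0.le
      have h6 : q * (q * N) ≤ 1 := by rw [hg]; nlinarith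
      rw [pow_succ', h1]
      rw [hθq] at h5 ⊢
      nlinarith
  have hdec : ∀ j, zz d p (L + j) * θ ^ j ≤ zz d p L := by
    intro j
    induction j with
    | zero => simp
    | succ j ih =>
      have h1 : zz d p (L + (j + 1)) * θ ≤ zz d p (L + j) := by
        have h2 : p (L + j) = 1 / (N + 2) := by simp [hp]
        rw [← add_assoc, zs, h2]
        have h3 : 1 / (N + 2) * θ * N ≤ 1 := by
          rw [hθ, div_mul_div_comm, div_mul_eq_mul_div, div_le_one (by positivity)]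
          nlinarith
        have h5 := mul_le_mul_of_nonneg_left (fz (L + j))
          (by positivity : 0 ≤ 1 / (N + 2) * θ)
        have h6 := mul_le_mul_of_nonneg_right h3 (zz_nonneg (d := d) hP (L + j))
        nlinarith
      have := mul_le_mul_of_nonneg_right h1 (pow_nonneg hθ0.le j)
      rw [pow_succ']
      nlinarith
  obtain ⟨M, hM⟩ : ∃ M, L + L = M + 1 := ⟨L + L - 1, by omega⟩
  have b1 : N ^ 3 ≤ aa d p (M + 1) := (hL2.trans (hgrow L le_rfl)).trans (aa_mono hP (by omega))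
  have b2 : zz d p (M + 1) * N ^ 3 ≤ aa d p (M + 1) := by
    have h1 := hdec L
    rw [hM] at h1
    have h2 : zz d p L ≤ aa d p (M + 1) :=
      single_le_sum (fun k _ => zz_nonneg hP k) (mem_range.2 (by omega))
    exact (mul_le_mul_of_nonneg_left hL2 (zz_nonneg hP _)).trans (h1.trans h2)
  refine ⟨p, q, M + 1, hP, fun k => ?_, b1, le_trans ?_ (hFK M (by omega))⟩
  · simp only [hp]
    split_ifs
    · exact Or.inl rfl
    · exact Or.inr rfl
  · have h1 : aa d p M = aa d p (M + 1) - zz d p (M + 1) := by rw [aa_succ]; ring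
    have hz := zz_nonneg (d := d) hP (M + 1)
    have h2 : (28 + 3 * |C0|) / N = (25 + 3 * |C0|) / N + 3 / N := by ring
    have h3 : 0 ≤ (25 + 3 * |C0|) / N := by positivity
    have hN3 : 0 < N ^ 3 := by positivity
    have h5 : zz d p (M + 1) * N ≤ aa d p (M + 1) * (1 / N) := by
      rw [mul_one_div, le_div_iff₀ hN0]
      refine le_trans ?_ b2
      rw [mul_assoc]
      exact mul_le_mul_of_nonneg_left (by nlinarith) hz
    have h6 : 2 ≤ aa d p (M + 1) * (2 / N) := by
      rw [← mul_div_assoc, le_div_iff₀ hN0]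
      have : N ^ 1 ≤ N ^ 3 := pow_le_pow_right₀ (by linarith) (by norm_num)
      linarith [pow_one N]
    have h7 : aa d p (M + 1) * (3 / N) = aa d p (M + 1) * (1 / N) + aa d p (M + 1) * (2 / N) := by
      ring
    rw [h1, h2]
    nlinarith [mul_nonneg hz h3]

end Pool.Agent.P.MP_d1c5d3_co.PL
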