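import Pool.Agent.P.MP_d1c5d3_co.PL.Iface

/-! Step REACH. -/

set_option autoImplicit false

namespace Pool.Agent.P.MP_d1c5d3_co.PL

open Finset Filter Topology

/-- States reachable in `k` steps. -/
def reach_R (d : ℕ) : ℕ → Finset (St d)
  | 0 => {s0 d}
  | k + 1 => (reach_R d k).biUnion fun s => (fresh s).powerset.image (step s)

/-- The trajectory read off from a set of cells. -/
def reach_traj {d : ℕ} (B : Finset (Cell d)) : ℕ → St d
  | 0 => s0 d
  | k + 1 => step (reach_traj B k) (B ∩ fresh (reach_traj B k))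

theorem reach_succ {d k : ℕ} {s' : St d} :
    s' ∈ reach_R d (k + 1) ↔ ∃ s ∈ reach_R d k, ∃ S ⊆ fresh s, step s S = s' := by
  simp only [reach_R, mem_biUnion, mem_image, mem_powerset]

theorem reach_inv {d k : ℕ} {s : St d} (h : s ∈ reach_R d k) : Inv s := by
  induction k generalizing s with
  | zero => rw [mem_singleton.1 h]; exact inv_s0
  | succ k ih =>
    obtain ⟨s, hs, S, hS, rfl⟩ := reach_succ.1 h
    exact inv_step (ih hs) hS

theorem reach_eq {d k : ℕ} {B : Finset (Cell d)} {s : St d} (h : s ∈ reach_R d k)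
    (h1 : s.1 ⊆ B) (h2 : B ∩ nb (s.1 \ s.2) ⊆ s.1) : reach_traj B k = s := by
  induction k generalizing s with
  | zero => rw [mem_singleton.1 h]; rfl
  | succ k ih =>
    obtain ⟨s, hs, S, hS, rfl⟩ := reach_succ.1 h
    rw [step_sdiff hS] at h2
    have h1' : s.1 ∪ S ⊆ B := h1
    have h2' : B ∩ nb s.1 ⊆ s.1 ∪ S := h2
    have e1 : reach_traj B k = s := ih hs (subset_union_left.trans h1') fun x hx => by
      obtain ⟨a, b⟩ := mem_inter.1 hx
      rcases mem_union.1 (h2' (mem_inter.2 ⟨a, nb_mono sdiff_subset b⟩)) with c | c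
      · exact c
      · exact absurd b (mem_fresh.1 (hS c)).2.2
    have e2 : B ∩ fresh s = S := by
      refine Subset.antisymm (fun x hx => ?_)
        (subset_inter (subset_union_right.trans h1') hS)
      obtain ⟨a, b⟩ := mem_inter.1 hx
      rcases mem_union.1 (h2' (mem_inter.2 ⟨a, nb_mono (reach_inv hs).1 (fresh_sub s b)⟩)) with
        c | c
      · exact absurd c (mem_fresh.1 b).2.1
      · exact c
    rw [reach_traj, e1, e2]

theorem reach_inj {d k : ℕ} {s s' : St d} (h : s ∈ reach_R d k) (h' : s' ∈ reach_R d k)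
    (e : s.1 = s'.1) : s = s' := by
  rw [← reach_eq h Subset.rfl inter_subset_left, ← reach_eq h' Subset.rfl inter_subset_left, e]

theorem reach_sum {d : ℕ} (k : ℕ) (f : St d → ℝ) : Sm k f = ∑ s ∈ reach_R d k, f s := by
  induction k generalizing f with
  | zero => simp [Sm, reach_R]
  | succ k ih =>
    rw [Sm_succ, ih, reach_R, sum_biUnion]
    · refine sum_congr rfl fun s _ => (sum_image fun S _ S' _ e => ?_).symm
      exact congrArg Prod.snd e
    · intro s hs s' hs' hne
      refine disjoint_left.2 fun t ht ht' => hne ?_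
      obtain ⟨S, hS, rfl⟩ := mem_image.1 ht
      obtain ⟨S', hS', e⟩ := mem_image.1 ht'
      refine reach_inj hs hs' ?_
      rw [← step_sdiff (mem_powerset.1 hS), ← step_sdiff (mem_powerset.1 hS'), e]

theorem reach_lk {d k : ℕ} {s : St d} (h : s ∈ reach_R d k) : ∀ x ∈ s.1, Lk s.1 0 x := by
  induction k generalizing s with
  | zero =>
    rw [mem_singleton.1 h]
    intro x hx
    rw [mem_singleton.1 hx]
    exact .refl
  | succ k ih =>
    obtain ⟨s, hs, S, hS, rfl⟩ := reach_succ.1 h
    intro x hx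
    rcases mem_union.1 hx with c | c
    · exact Lk_mono subset_union_left (ih hs x c)
    · obtain ⟨z, hz, t, rfl⟩ := mem_nb.1 (fresh_sub s (hS c))
      have hz' := (reach_inv hs).1 hz
      exact .tail (Lk_mono subset_union_left (ih hs z hz')) ⟨mem_union_left _ hz', hx, t, rfl⟩

theorem p_REACH :
    S_REACH := by
  intro d k
  refine ⟨(reach_R d k).image Prod.fst, fun B hB => ?_, fun f => ?_⟩
  · obtain ⟨s, hs, rfl⟩ := mem_image.1 hB
    exact ⟨(reach_inv hs).2.1, Cn_of_root (reach_lk hs)⟩
  · rw [reach_sum, sum_image fun s hs s' hs' e => reach_inj hs hs' e]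

end Pool.Agent.P.MP_d1c5d3_co.PL
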