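import Pool.Agent.P.MP_d1c5d3_co.PL.Iface

/-! Step REC. -/

set_option autoImplicit false

namespace Pool.Agent.P.MP_d1c5d3_co.PL

open Finset Filter Topology

theorem p_REC (hBIN : S_BIN) (hNBS : S_NBS) :
    S_REC := by
  intro d p q hp h hh
  refine ⟨by simp [RR, Ex, s0, pairs], by simp [QQ, Ex, s0], fun k => ⟨?_, ?_⟩⟩
  · have e : q ^ 2 * (zz d p k * T (T h) 0 + RR p k (T (T h))) = Ex p k fun s : St d =>
        q ^ 2 * (T (T h) 0 * (s.2.card : ℝ) + pairs s.2 fun a b => T (T h) (a - b)) := by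
      rw [Ex_mul, Ex_add, Ex_mul, mul_comm (zz d p k)]
      rfl
    rw [e, RR, Ex_succ]
    refine Ex_mono hp k fun s _ => ?_
    have h1 := (hBIN d (p k) (fresh s)).2 fun a b => h (a - b)
    have h2 := ((hNBS d s.2 (fresh s) (fresh_sub s)).1 h hh).2
    have h3 : 0 ≤ pairs (fresh s) fun a b => h (a - b) :=
      sum_nonneg fun _ _ => sum_nonneg fun _ _ => hh _
    refine le_trans (le_of_eq h1) ?_
    rw [mul_comm (T (T h) 0)]
    exact mul_le_mul (pow_le_pow_left₀ (hp.2 k).1 (hp.2 k).2 2) h2 h3 (sq_nonneg q)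
  · have e : q * (QQ p k (T h) + zz d p k * T h 0 + RR p k (T h)) = Ex p k fun s : St d =>
        q * ((∑ b ∈ s.2, ∑ w ∈ s.1 \ s.2, T h (b - w)) + T h 0 * (s.2.card : ℝ) +
          pairs s.2 fun a b => T h (a - b)) := by
      rw [Ex_mul, Ex_add, Ex_add, Ex_mul, mul_comm (zz d p k)]
      rfl
    rw [e, QQ, Ex_succ]
    refine Ex_mono hp k fun s hs => ?_
    have h0 : (Bin (p k) (fresh s) fun S => ∑ b ∈ (step s S).2,
        ∑ w ∈ (step s S).1 \ (step s S).2, h (b - w)) =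
        Bin (p k) (fresh s) fun S => ∑ b ∈ S, ∑ w ∈ s.1, h (b - w) :=
      Bin_congr _ fun S hS => by rw [step_sdiff hS]; rfl
    rw [h0, (hBIN d (p k) (fresh s)).1 fun b => ∑ w ∈ s.1, h (b - w)]
    refine mul_le_mul (hp.2 k).2 ?_ (sum_nonneg fun _ _ => sum_nonneg fun _ _ => hh _)
      ((hp.2 k).1.trans (hp.2 k).2)
    rw [sum_comm]
    refine (sum_le_sum fun w _ => ((hNBS d s.2 (fresh s) (fresh_sub s)).1 h hh).1 w).trans ?_
    rw [sum_comm, pairs, mul_comm, ← nsmul_eq_mul, ← sum_const, ← sum_add_distrib,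
      ← sum_add_distrib]
    refine sum_le_sum fun a ha => le_of_eq ?_
    rw [← sum_sdiff hs.1, ← add_sum_erase s.2 _ ha, sub_self, add_assoc]

end Pool.Agent.P.MP_d1c5d3_co.PL
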