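import Pool.Agent.P.MP_d1c5d3_co.PL.Iface

/-! Step ROOT. -/

set_option autoImplicit false

namespace Pool.Agent.P.MP_d1c5d3_co.PL

open Finset Filter Topology

theorem root_lk {d : ℕ} {B : Finset (Cell d)} (c : Cell d) {a b : Cell d} (h : Lk B a b) :
    Lk (B.image (· - c)) (a - c) (b - c) := by
  induction h with
  | refl => exact .refl
  | tail _ h ih =>
    obtain ⟨h1, h2, t, rfl⟩ := h
    exact .tail ih ⟨mem_image_of_mem _ h1, mem_image_of_mem _ h2, t, by abel⟩

theorem root_lex {d : ℕ} {c x : Cell d} (h : toLex c ≤ toLex x) :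
    toLex (0 : Cell d) ≤ toLex (x - c) := by
  rcases h.eq_or_lt with h | h
  · rw [toLex_inj.1 h, sub_self]
  · obtain ⟨i, h1, h2⟩ := h
    refine le_of_lt ⟨i, fun j hj => ?_, ?_⟩
    · have : c j = x j := h1 j hj
      change (0 : ℤ) = x j - c j
      omega
    · have : c i < x i := h2
      change (0 : ℤ) < x i - c i
      omega

theorem p_ROOT (hCONN : S_CONN) :
    S_ROOT := by
  intro d lam hfin hle m G hG
  have hsub : G ⊆ (hfin m).toFinset.biUnion fun P => P.image fun x => P.image (· - x) := by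
    intro B hB
    obtain ⟨h1, h2, h3⟩ := hG B hB
    obtain ⟨c, hc, hmin⟩ := exists_min_image B (fun x => toLex x) ⟨0, h2⟩
    refine mem_biUnion.2 ⟨B.image (· - c), (Set.Finite.mem_toFinset _).2 ⟨?_, ?_, ?_, ?_⟩,
      mem_image.2 ⟨0 - c, mem_image_of_mem _ h2, ?_⟩⟩
    · rw [card_image_of_injective _ sub_left_injective, h1]
    · exact mem_image.2 ⟨c, hc, sub_self c⟩
    · intro x hx
      obtain ⟨y, hy, rfl⟩ := mem_image.1 hx
      exact root_lex (hmin y hy)
    · refine (hCONN d _ ⟨_, mem_image_of_mem _ hc⟩).2 fun a ha b hb => ?_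
      obtain ⟨x, hx, rfl⟩ := mem_image.1 ha
      obtain ⟨y, hy, rfl⟩ := mem_image.1 hb
      exact root_lk c (h3 x hx y hy)
    · rw [image_image]
      exact (image_congr fun x _ => by simp).trans image_id
  have hc : G.card ≤ (poly d m).ncard * m := by
    rw [Set.ncard_eq_toFinset_card _ (hfin m)]
    refine (card_le_card hsub).trans (card_biUnion_le_card_mul _ _ _ fun P hP => ?_)
    exact card_image_le.trans ((Set.Finite.mem_toFinset _).1 hP).1.le
  calc (G.card : ℝ) ≤ (poly d m).ncard * m := by exact_mod_cast hc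
    _ ≤ lam ^ m * m := mul_le_mul_of_nonneg_right (hle m) (Nat.cast_nonneg m)
    _ = m * lam ^ m := mul_comm _ _

end Pool.Agent.P.MP_d1c5d3_co.PL
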