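import Pool.Agent.P.MP_d1c5d3_co.PL.Iface

/-! Step RW. -/

set_option autoImplicit false

namespace Pool.Agent.P.MP_d1c5d3_co.PL

open Finset Filter Topology

/-- The distance to the origin. -/
def rw_n {d : ℕ} (x : Cell d) : ℕ := ∑ i, (x i).natAbs

theorem rw_step {d : ℕ} (x : Cell d) (t : Dir d) : rw_n (x + u t) = rw_n x + 1 ∨
    (rw_n (x + u t) + 1 = rw_n x ∧ x t.1 ≠ 0 ∧ t.2 = decide (x t.1 < 0)) := by
  obtain ⟨i, b⟩ := t
  have h : ∑ j ∈ univ.erase i, ((x + u (i, b)) j).natAbs = ∑ j ∈ univ.erase i, (x j).natAbs :=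
    sum_congr rfl fun j hj => by simp [u, Pi.single_eq_of_ne (ne_of_mem_erase hj)]
  unfold rw_n
  rw [← add_sum_erase _ _ (mem_univ i), ← add_sum_erase _ (fun j => (x j).natAbs) (mem_univ i), h]
  cases b <;> simp [u] <;> omega

theorem rw_zero {d : ℕ} (l : ℕ) (x : Cell d) (h : l < rw_n x ∨ (l + rw_n x) % 2 = 1) :
    E d l x = 0 := by
  induction l generalizing x with
  | zero =>
    have : x ≠ 0 := by
      rintro rfl
      simp [rw_n] at h
    simp [E, this]
  | succ l ih =>
    rw [E_succ]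
    refine sum_eq_zero fun t _ => ih _ ?_
    rcases rw_step x t with e | ⟨e, -⟩ <;> omega

theorem rw_cnt {d : ℕ} (x : Cell d) {c : ℝ} (hc : 0 ≤ c) :
    ∑ t : Dir d, (if x t.1 ≠ 0 ∧ t.2 = decide (x t.1 < 0) then c else 0) ≤ rw_n x * c := by
  rw [Fintype.sum_prod_type, rw_n, Nat.cast_sum, sum_mul]
  refine sum_le_sum fun i _ => ?_
  by_cases h : x i = 0
  · simp [h]
  · have h1 : (1 : ℝ) ≤ ((x i).natAbs : ℕ) := by
      exact_mod_cast Int.natAbs_pos.2 h
    have h2 : c ≤ ((x i).natAbs : ℕ) * c := le_mul_of_one_le_left hc h1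
    by_cases h3 : x i < 0 <;> simpa [h, h3] using h2

theorem rw_bd {d : ℕ} {s : ℝ} (hs : 0 < s) (h2 : s * s = 2 * d) (l : ℕ) (x : Cell d) :
    E d l x * s ^ rw_n x ≤ (l + 1).factorial * s ^ l := by
  induction l generalizing x with
  | zero =>
    by_cases h : x = 0
    · subst h
      simp [E, rw_n]
    · simp [E, h]
  | succ l ih =>
    by_cases hx : l + 1 < rw_n x
    · rw [rw_zero _ _ (Or.inl hx), zero_mul]
      positivity
    set A : ℝ := (l + 1).factorial * s ^ l with hA
    have A0 : 0 ≤ A := by positivity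
    have key : ∀ t : Dir d, E d l (x + u t) * s ^ rw_n x ≤
        (if x t.1 ≠ 0 ∧ t.2 = decide (x t.1 < 0) then A * s else 0) + A / s := by
      intro t
      have h := ih (x + u t)
      rcases rw_step x t with e | ⟨e, e'⟩
      · rw [e, pow_succ, ← mul_assoc, ← le_div_iff₀ hs] at h
        refine h.trans (le_add_of_nonneg_left ?_)
        split_ifs <;> positivity
      · rw [if_pos e', ← e, pow_succ, ← mul_assoc]
        exact (mul_le_mul_of_nonneg_right h hs.le).trans (le_add_of_nonneg_right (by positivity))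
    rw [E_succ, sum_mul]
    refine (sum_le_sum fun t _ => key t).trans ?_
    rw [sum_add_distrib, sum_const, nsmul_eq_mul, card_univ, card_dir, ← h2]
    have h3 := rw_cnt x (c := A * s) (by positivity)
    have h4 : (rw_n x : ℝ) ≤ l + 1 := by exact_mod_cast not_lt.1 hx
    have h5 : s * s * (A / s) = A * s := by field_simp
    have h6 := mul_le_mul_of_nonneg_right h4 (show 0 ≤ A * s by positivity)
    have h7 : ((l + 1 + 1).factorial : ℝ) * s ^ (l + 1) = (l + 1) * (A * s) + A * s := by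
      rw [Nat.factorial_succ (l + 1), hA]
      push_cast
      ring
    rw [h5, h7]
    linarith

theorem p_RW :
    S_RW := by
  intro d hd
  refine ⟨fun l hl => rw_zero l 0 (Or.inr (by simpa [rw_n] using Nat.odd_iff.1 hl)), ?_⟩
  have d1 : (1 : ℝ) ≤ d := by exact_mod_cast hd
  have h2 : √(2 * d : ℝ) * √(2 * d : ℝ) = 2 * d := Real.mul_self_sqrt (by linarith)
  have s1 : 1 ≤ √(2 * d : ℝ) := Real.one_le_sqrt.2 (by linarith)
  intro m k
  induction k with
  | zero =>
    intro x
    have h := rw_bd (by linarith) h2 (2 * m) x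
    rw [pow_mul, sq, h2] at h
    exact (le_mul_of_one_le_right (E_nonneg _ _) (one_le_pow₀ s1)).trans h
  | succ k ih =>
    intro x
    rw [← add_assoc, E_succ]
    refine (T_le ih x).trans_eq ?_
    rw [← add_assoc, pow_succ]
    ring

end Pool.Agent.P.MP_d1c5d3_co.PL
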