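import Pool.Agent.P.MP_d1c5d3_co.PL.Iface

/-! Step SIG. -/

set_option autoImplicit false

namespace Pool.Agent.P.MP_d1c5d3_co.PL

open Finset Filter Topology

theorem sig_term (hRW : S_RW) : ∃ c : ℕ → ℝ, (∀ r, 0 ≤ c r) ∧ ∀ (d : ℕ) (q : ℝ) (r l : ℕ),
    1 ≤ d → 0 ≤ q → 2 * r + 2 ≤ l →
    q ^ l * E d (l + 2) 0 ≤ c r * (q * (2 * d)) ^ l / (2 * d) ^ r := by
  refine ⟨fun r => (2 * (r + 2) + 1).factorial, fun r => Nat.cast_nonneg _, ?_⟩
  intro d q r l hd hq hl
  obtain ⟨k, rfl⟩ := Nat.exists_eq_add_of_le hl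
  have hN : (0 : ℝ) < 2 * d := by positivity
  have h := (hRW d hd).2 (r + 2) k 0
  rw [show 2 * (r + 2) + k = 2 * r + 2 + k + 2 by ring] at h
  refine (mul_le_mul_of_nonneg_left h (pow_nonneg hq _)).trans_eq ?_
  rw [eq_div_iff (pow_pos hN r).ne', mul_pow q,
    show 2 * r + 2 + k = r + 2 + k + r by ring, pow_add (2 * (d : ℝ)) (r + 2 + k) r]
  ring

theorem p_SIG (hRW : S_RW) :
    S_SIG := by
  obtain ⟨c, hc0, hc⟩ := sig_term hRW
  obtain ⟨P, hP0, hP⟩ : ∃ P : ℝ, 0 ≤ P ∧ ∀ (g : ℝ) (l : ℕ), 1 ≤ g → g ≤ 2 → l ≤ 178 →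
      g ^ l ≤ P :=
    ⟨2 ^ 178, by positivity, fun g l h1 h2 hl =>
      (pow_le_pow_right₀ h1 hl).trans (pow_le_pow_left₀ (by linarith) h2 _)⟩
  refine ⟨178 * 178 * (c 1 * P) + 256 * c 88, ?_⟩
  intro d q K hd hg1 hg2 hK hgK
  have hc' := fun r l => hc d q r l hd
  have hodd := (hRW d hd).1 5 (by decide)
  have hN2 : (2 : ℝ) ≤ 2 * d := by
    have : (1 : ℝ) ≤ d := by exact_mod_cast hd
    linarith
  unfold sig
  generalize (2 * d : ℝ) = N at *
  have hN : 0 < N := by linarith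
  have hq : 0 ≤ q := by
    by_contra h
    have := mul_neg_of_neg_of_pos (not_le.1 h) hN
    linarith
  have hA : 0 ≤ c 1 * P / N := div_nonneg (mul_nonneg (hc0 1) hP0) hN.le
  have hB : 0 ≤ c 88 * 64 / N ^ 13 := div_nonneg (mul_nonneg (hc0 88) (by norm_num)) (by positivity)
  have key : ∀ z ∈ range (K + 2) ×ˢ range (K + 2),
      q ^ (z.1 + 2 * z.2 + 3) * E d (z.1 + 2 * z.2 + 5) 0 ≤
        (if z ∈ range 178 ×ˢ range 178 then c 1 * P / N else 0) + c 88 * 64 / N ^ 13 := by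
    rintro ⟨n, i⟩ hz
    simp only [mem_product, mem_range] at hz ⊢
    by_cases h : n + 2 * i + 3 < 178
    · rw [if_pos ⟨by omega, by omega⟩]
      refine le_add_of_le_of_nonneg ?_ hB
      by_cases h0 : n + 2 * i = 0
      · rw [h0, hodd, mul_zero]
        exact hA
      · refine (hc' 1 (n + 2 * i + 3) hq (by omega)).trans ?_
        rw [pow_one]
        exact div_le_div_of_nonneg_right
          (mul_le_mul_of_nonneg_left (hP _ _ hg1 hg2 h.le) (hc0 1)) hN.le
    · refine le_add_of_nonneg_of_le (by split_ifs; exacts [hA, le_rfl]) ?_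
      refine (hc' 88 (n + 2 * i + 3) hq (by omega)).trans ?_
      have h1 : (q * N) ^ (n + 2 * i + 3) ≤ 64 * N ^ 75 := by
        refine (pow_le_pow_right₀ hg1 (show n + 2 * i + 3 ≤ 6 + K * 3 by omega)).trans ?_
        rw [pow_add, pow_mul, show N ^ 75 = (N ^ 25) ^ 3 by ring]
        refine mul_le_mul ((pow_le_pow_left₀ (by linarith) hg2 6).trans_eq (by norm_num))
          (pow_le_pow_left₀ (by positivity) hgK 3) (by positivity) (by norm_num)
      rw [div_le_div_iff₀ (by positivity) (by positivity), show N ^ 88 = N ^ 75 * N ^ 13 by ring,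
        ← mul_assoc, mul_assoc (c 88) 64]
      exact mul_le_mul_of_nonneg_right (mul_le_mul_of_nonneg_left h1 (hc0 88)) (by positivity)
  rw [← sum_product']
  refine (sum_le_sum key).trans ?_
  rw [sum_add_distrib, sum_ite_mem, sum_const, sum_const, nsmul_eq_mul, nsmul_eq_mul, add_div]
  refine add_le_add ?_ ?_
  · rw [mul_div_assoc (178 * 178 : ℝ)]
    refine mul_le_mul_of_nonneg_right ?_ hA
    have := card_le_card (inter_subset_right (s₁ := range (K + 2) ×ˢ range (K + 2))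
      (s₂ := range 178 ×ˢ range 178))
    rw [card_product, card_range] at this
    exact_mod_cast this
  · rw [card_product, card_range]
    have h1 : (1 : ℝ) ≤ N := by linarith
    have h5 : 2 ≤ N ^ 5 := hN2.trans (le_self_pow₀ h1 (by norm_num))
    have h6 : ((K + 2 : ℕ) : ℝ) ≤ 2 * N ^ 6 := by
      have : N ^ 5 ≤ N ^ 6 := pow_le_pow_right₀ h1 (by norm_num)
      push_cast
      linarith
    rw [Nat.cast_mul]
    refine (mul_le_mul_of_nonneg_right
      (mul_le_mul h6 h6 (Nat.cast_nonneg _) (by positivity)) hB).trans_eq ?_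
    field_simp
    ring

end Pool.Agent.P.MP_d1c5d3_co.PL
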