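import Pool.Agent.P.MP_d1c5d3_co.PL.Iface

/-! Step SOL. -/

set_option autoImplicit false

namespace Pool.Agent.P.MP_d1c5d3_co.PL

open Finset Filter Topology

theorem sol_step {d : ℕ} (q : ℝ) (m : ℕ) (h : Cell d → ℝ) :
    q ^ (m + 1) * T^[m + 1] h 0 = q * (q ^ m * T^[m] (T h) 0) := by
  rw [Function.iterate_succ_apply]; ring

theorem sol_R (hREC : S_REC) {d : ℕ} {p : ℕ → ℝ} {q : ℝ} (hp : Pr p q) (K : ℕ)
    (h : Cell d → ℝ) (hh : ∀ x, 0 ≤ h x) : ∑ k ∈ range (K + 1), RR p k h ≤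
      aa d p K * ∑ i ∈ range K, q ^ (2 * i + 2) * T^[2 * i + 2] h 0 := by
  have hq : 0 ≤ q := (hp.2 0).1.trans (hp.2 0).2
  induction K generalizing h with
  | zero => simp [(hREC d p q hp h hh).1]
  | succ K ih =>
    obtain ⟨h0, -, h1⟩ := hREC d p q hp h hh
    have h2 := ih (T (T h)) (T_nonneg (T_nonneg hh))
    have e : ∑ i ∈ range (K + 1), q ^ (2 * i + 2) * T^[2 * i + 2] h 0 =
        q ^ 2 * (T (T h) 0 + ∑ i ∈ range K, q ^ (2 * i + 2) * T^[2 * i + 2] (T (T h)) 0) := by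
      rw [sum_range_succ', mul_add, mul_sum, add_comm]
      congr 1
      refine sum_congr rfl fun i _ => ?_
      rw [show 2 * (i + 1) + 2 = 2 * i + 2 + 1 + 1 by ring, sol_step, sol_step]
      ring
    have n : 0 ≤ ∑ i ∈ range (K + 1), q ^ (2 * i + 2) * T^[2 * i + 2] h 0 :=
      sum_nonneg fun i _ => mul_nonneg (pow_nonneg hq _) (Ti_nonneg _ hh _)
    refine le_trans ?_ (mul_le_mul_of_nonneg_right (aa_mono hp (Nat.le_succ K)) n)
    rw [sum_range_succ', h0, add_zero, e]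
    refine (sum_le_sum fun k _ => (h1 k).1).trans ?_
    rw [← mul_sum, sum_add_distrib, ← sum_mul, mul_left_comm]
    refine mul_le_mul_of_nonneg_left ?_ (pow_nonneg hq _)
    rw [mul_add]
    exact add_le_add le_rfl h2

theorem sol_Q (hREC : S_REC) {d : ℕ} {p : ℕ → ℝ} {q : ℝ} (hp : Pr p q) (K : ℕ)
    (h : Cell d → ℝ) (hh : ∀ x, 0 ≤ h x) : ∑ k ∈ range (K + 1), QQ p k h ≤
      aa d p K * ∑ n ∈ range K, (q ^ (n + 1) * T^[n + 1] h 0 +
        ∑ i ∈ range K, q ^ (n + 2 * i + 3) * T^[n + 2 * i + 3] h 0) := by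
  have hq : 0 ≤ q := (hp.2 0).1.trans (hp.2 0).2
  induction K generalizing h with
  | zero => simp [(hREC d p q hp h hh).2.1]
  | succ K ih =>
    obtain ⟨-, h0, h1⟩ := hREC d p q hp h hh
    have h2 := ih (T h) (T_nonneg hh)
    have h3 := sol_R hREC hp K (T h) (T_nonneg hh)
    have g : ∀ m, 0 ≤ q ^ m * T^[m] h 0 := fun m =>
      mul_nonneg (pow_nonneg hq _) (Ti_nonneg _ hh _)
    have a0 : 0 ≤ aa d p K := sum_nonneg fun k _ => zz_nonneg hp k
    have s : ∀ n, ∑ i ∈ range K, q ^ (n + 2 * i + 3) * T^[n + 2 * i + 3] h 0 ≤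
        ∑ i ∈ range (K + 1), q ^ (n + 2 * i + 3) * T^[n + 2 * i + 3] h 0 := fun n => by
      rw [sum_range_succ]; exact le_add_of_nonneg_right (g _)
    have e : q * (∑ n ∈ range K, (q ^ (n + 1) * T^[n + 1] (T h) 0 +
          ∑ i ∈ range K, q ^ (n + 2 * i + 3) * T^[n + 2 * i + 3] (T h) 0) + T h 0 +
          ∑ i ∈ range K, q ^ (2 * i + 2) * T^[2 * i + 2] (T h) 0) ≤
        ∑ n ∈ range (K + 1), (q ^ (n + 1) * T^[n + 1] h 0 +
          ∑ i ∈ range (K + 1), q ^ (n + 2 * i + 3) * T^[n + 2 * i + 3] h 0) := by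
      rw [sum_range_succ', add_assoc, mul_add, mul_add]
      refine add_le_add ?_ (add_le_add (le_of_eq (by simp)) (le_trans (le_of_eq ?_) (s 0)))
      · rw [mul_sum]
        refine sum_le_sum fun n _ => ?_
        rw [mul_add, ← sol_step]
        refine add_le_add le_rfl (le_trans (le_of_eq ?_) (s (n + 1)))
        rw [mul_sum]
        refine sum_congr rfl fun i _ => ?_
        rw [← sol_step, show n + 2 * i + 3 + 1 = n + 1 + 2 * i + 3 by ring]
      · rw [mul_sum]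
        refine sum_congr rfl fun i _ => ?_
        rw [← sol_step, zero_add]
    have n : 0 ≤ ∑ n ∈ range (K + 1), (q ^ (n + 1) * T^[n + 1] h 0 +
          ∑ i ∈ range (K + 1), q ^ (n + 2 * i + 3) * T^[n + 2 * i + 3] h 0) :=
      sum_nonneg fun i _ => add_nonneg (g _) (sum_nonneg fun _ _ => g _)
    refine le_trans ?_ (mul_le_mul_of_nonneg_right (aa_mono hp (Nat.le_succ K)) n)
    refine le_trans ?_ (mul_le_mul_of_nonneg_left e a0)
    rw [sum_range_succ', h0, add_zero]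
    refine (sum_le_sum fun k _ => (h1 k).2).trans ?_
    rw [← mul_sum, sum_add_distrib, sum_add_distrib, ← sum_mul, mul_left_comm]
    refine mul_le_mul_of_nonneg_left ?_ hq
    rw [mul_add, mul_add]
    exact add_le_add (add_le_add h2 le_rfl) h3

theorem p_SOL (hREC : S_REC) :
    S_SOL := fun _ _ _ hp K h hh => ⟨sol_R hREC hp K h hh, sol_Q hREC hp K h hh⟩

end Pool.Agent.P.MP_d1c5d3_co.PL
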