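import Pool.Agent.P.MP_d1c5d3_co.PL.Iface

/-! Step SUP. -/

set_option autoImplicit false

namespace Pool.Agent.P.MP_d1c5d3_co.PL

open Finset Filter Topology

theorem sup_tr {d : ℕ} {Q : Finset (Cell d)} (c : Cell d) {a b : Cell d} (h : Lk Q a b) :
    Lk (Q.image (· + c)) (a + c) (b + c) := by
  induction h with
  | refl => exact .refl
  | tail _ h ih =>
    obtain ⟨h1, h2, t, rfl⟩ := h
    exact .tail ih ⟨mem_image_of_mem _ h1, mem_image_of_mem _ h2, t, add_right_comm _ _ _⟩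

theorem sup_pos {d : ℕ} (i : Fin d) : toLex (0 : Cell d) < toLex (u (i, true)) := by
  refine Pi.toLex_strictMono (lt_of_le_of_ne (fun j => ?_) (u_ne_zero _).symm)
  by_cases h : j = i <;> simp [u, h]

theorem sup_new {d : ℕ} (i : Fin d) {x y M : Cell d} (hx : toLex x ≤ toLex M)
    (hy : toLex (0 : Cell d) ≤ toLex y) : toLex x < toLex (y + (M + u (i, true))) := by
  have h1 : toLex M < toLex M + toLex (u (i, true)) := lt_add_of_pos_right _ (sup_pos i)
  have h2 : toLex M + toLex (u (i, true)) ≤ toLex y + (toLex M + toLex (u (i, true))) :=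
    le_add_of_nonneg_left hy
  exact hx.trans_lt (h1.trans_le h2)

theorem sup_seg {d : ℕ} {P P' N N' : Finset (Cell d)} (hc : P.card = P'.card)
    (h : ∀ x ∈ P, ∀ y ∈ N, toLex x < toLex y) (h' : ∀ x ∈ P', ∀ y ∈ N', toLex x < toLex y)
    (e : P ∪ N = P' ∪ N') : P ⊆ P' := by
  intro x hx
  by_contra hn
  have hx' : x ∈ N' := (mem_union.1 (e ▸ mem_union_left N hx)).resolve_left hn
  have hs : insert x P' ⊆ P := insert_subset hx fun y hy =>
    (mem_union.1 (e.symm ▸ mem_union_left N' hy : y ∈ P ∪ N)).resolve_right fun g =>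
      lt_asymm (h x hx y g) (h' y hy x hx')
  have := card_le_card hs
  rw [card_insert_of_notMem hn] at this
  omega

theorem p_SUP (hCONN : S_CONN) :
    S_SUP := by
  intro d hd hf
  refine ⟨(Set.ncard_pos (hf 1)).2 ⟨{0}, card_singleton _, mem_singleton_self _,
    fun x hx => by rw [mem_singleton.1 hx], (hCONN d _ (singleton_nonempty _)).2
      (Cn_of_root (r := 0) fun x hx => by rw [mem_singleton.1 hx]; exact .refl)⟩, fun m n => ?_⟩
  have hm : ∀ P : Finset (Cell d), ∃ M : Cell d, (0 : Cell d) ∈ P →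
      M ∈ P ∧ ∀ x ∈ P, toLex x ≤ toLex M := fun P => by
    by_cases h : P.Nonempty
    · obtain ⟨M, h1, h2⟩ := exists_max_image P (fun x => toLex x) h
      exact ⟨M, fun _ => ⟨h1, h2⟩⟩
    · exact ⟨0, fun g => absurd ⟨0, g⟩ h⟩
  choose mx hmx using hm
  obtain ⟨i⟩ : Nonempty (Fin d) := ⟨⟨0, hd⟩⟩
  have lt : ∀ P ∈ poly d m, ∀ Q ∈ poly d n, ∀ x ∈ P,
      ∀ y ∈ Q.image (· + (mx P + u (i, true))), toLex x < toLex y := fun P hP Q hQ x hx y hy => by
    obtain ⟨z, hz, rfl⟩ := mem_image.1 hy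
    exact sup_new i ((hmx P hP.2.1).2 x hx) (hQ.2.2.1 z hz)
  have dj : ∀ P ∈ poly d m, ∀ Q ∈ poly d n,
      Disjoint P (Q.image (· + (mx P + u (i, true)))) := fun P hP Q hQ =>
    disjoint_left.2 fun x hx hx' => lt_irrefl _ (lt P hP Q hQ x hx x hx')
  rw [← Set.ncard_prod]
  refine Set.ncard_le_ncard_of_injOn
    (fun a => a.1 ∪ a.2.image (· + (mx a.1 + u (i, true)))) ?_ ?_ (hf _)
  · rintro ⟨P, Q⟩ ⟨hP, hQ⟩
    have h0 : (0 : Cell d) ∈ P ∪ Q.image (· + (mx P + u (i, true))) := mem_union_left _ hP.2.1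
    refine ⟨?_, h0, fun x hx => ?_, (hCONN d _ ⟨0, h0⟩).2 (Cn_of_root (r := 0) fun x hx => ?_)⟩
    · rw [card_union_of_disjoint (dj P hP Q hQ),
        card_image_of_injective _ (add_left_injective _), hP.1, hQ.1]
    · rcases mem_union.1 hx with h | h
      · exact hP.2.2.1 x h
      · exact (lt P hP Q hQ 0 hP.2.1 x h).le
    · have cP := (hCONN d P ⟨0, hP.2.1⟩).1 hP.2.2.2
      have cQ := (hCONN d Q ⟨0, hQ.2.1⟩).1 hQ.2.2.2
      rcases mem_union.1 hx with h | h
      · exact Lk_mono subset_union_left (cP 0 hP.2.1 x h)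
      · obtain ⟨z, hz, rfl⟩ := mem_image.1 h
        have hM := (hmx P hP.2.1).1
        refine (Lk_mono subset_union_left (cP 0 hP.2.1 _ hM)).trans (.head (b := 0 + (mx P +
          u (i, true))) ⟨mem_union_left _ hM, mem_union_right _ (mem_image_of_mem _ hQ.2.1),
            (i, true), zero_add _⟩ ?_)
        exact Lk_mono subset_union_right (sup_tr _ (cQ 0 hQ.2.1 z hz))
  · rintro ⟨P, Q⟩ ⟨hP, hQ⟩ ⟨P', Q'⟩ ⟨hP', hQ'⟩ e
    have hc : P.card = P'.card := hP.1.trans hP'.1.symm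
    obtain rfl : P = P' :=
      eq_of_subset_of_card_le (sup_seg hc (lt P hP Q hQ) (lt P' hP' Q' hQ') e) hc.ge
    have e' := congrArg (· \ P) e
    simp only [union_sdiff_cancel_left (dj P hP Q hQ),
      union_sdiff_cancel_left (dj P hP Q' hQ')] at e'
    rw [image_injective (add_left_injective _) e']

end Pool.Agent.P.MP_d1c5d3_co.PL
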