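import Pool.Agent.P.MP_d1c5d3_co.PL.Iface

/-! Step TWO. -/

set_option autoImplicit false

namespace Pool.Agent.P.MP_d1c5d3_co.PL

open Finset Filter Topology

variable {d : ℕ}

theorem two_le {r t : Dir d} (h : r ≠ t) : u r t.1 * u t t.1 ≤ 0 := by
  obtain ⟨i, b⟩ := r
  obtain ⟨j, c⟩ := t
  by_cases e : j = i
  · subst e; cases b <;> cases c <;> simp_all [u]
  · simp [u, e]

theorem two_key {t t' s s' : Dir d} (h : u t + u t' = u s + u s') (h0 : u t + u t' ≠ 0) :
    s = t ∨ s' = t := by
  by_contra hc
  push Not at hc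
  have h1 : t' ≠ opp t := fun e => h0 (by rw [e, u_opp]; abel)
  have h2 := two_le h1
  have h3 := two_le hc.1
  have h4 := two_le hc.2
  have h5 : u t t.1 * u t t.1 = 1 := by
    obtain ⟨j, c⟩ := t
    cases c <;> simp [u]
  have h6 := congrFun h t.1
  rw [u_opp] at h2
  simp only [Pi.add_apply, Pi.neg_apply, opp] at h6 h2
  have h7 : (u t t.1 + u t' t.1) * u t t.1 = (u s t.1 + u s' t.1) * u t t.1 := by rw [h6]
  linarith

theorem two_E (x : Cell d) :
    E d 2 x = ((univ.filter fun t : Dir d × Dir d => x + u t.1 + u t.2 = 0).card : ℝ) := by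
  rw [card_filter, Nat.cast_sum, Fintype.sum_prod_type, E_succ]
  refine sum_congr rfl fun t _ => ?_
  rw [E_succ]
  exact sum_congr rfl fun t' _ => by simp [E]

theorem p_TWO :
    S_TWO := by
  intro d x
  refine ⟨two_E x, ?_⟩
  unfold h2
  split_ifs with hx
  · norm_num
  rw [two_E]
  rcases (univ.filter fun t : Dir d × Dir d => x + u t.1 + u t.2 = 0).eq_empty_or_nonempty with
    h | ⟨t, ht⟩
  · rw [h]; simp
  have h1 : (univ.filter fun t : Dir d × Dir d => x + u t.1 + u t.2 = 0) ⊆ {t, t.swap} :=
    fun s hs => by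
      have a := (mem_filter.1 ht).2
      have b := (mem_filter.1 hs).2
      have e : u t.1 + u t.2 = u s.1 + u s.2 := by linear_combination (exp := 1) a - b
      have e0 : u t.1 + u t.2 ≠ 0 := fun h => hx (by linear_combination (exp := 1) a - h)
      rcases two_key e e0 with h | h
      · rw [h] at e
        exact mem_insert.2 (.inl (Prod.ext h (u_inj (add_left_cancel e)).symm))
      · rw [h, add_comm] at e
        exact mem_insert.2 (.inr (mem_singleton.2
          (Prod.ext (u_inj (add_right_cancel e)).symm h)))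
  exact_mod_cast (card_le_card h1).trans card_le_two

end Pool.Agent.P.MP_d1c5d3_co.PL
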