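import Pool.Agent.P.MP_d1c5d3_co.PL.Iface
import Pool.Agent.P.MP_d1c5d3_co.PG.Num

/-! Step UP. -/

set_option autoImplicit false

namespace Pool.Agent.P.MP_d1c5d3_co.PL

open Finset Filter Topology

theorem p_UP :
    S_UP := by
  obtain ⟨C, hC⟩ := PG.main_bound
  refine ⟨C, fun d hd n => ?_⟩
  have key : ∀ A ∈ poly d n, PG.Good ⟨0, hd⟩ A ∧ A.card = n :=
    fun A h => ⟨PG.good_of _ rfl h.2.1 h.2.2.1 h.2.2.2, h.1⟩
  have hf : (poly d n).Finite := by
    by_contra h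
    obtain ⟨k, hk⟩ := exists_nat_gt (((2 * d - 3) * Real.exp 1 + C / d) ^ n)
    obtain ⟨A, h1, h2⟩ := Set.Infinite.exists_subset_card_eq h k
    have := hC d _ n A fun S hS => key S (h1 hS)
    rw [h2] at this
    linarith
  refine ⟨hf, ?_⟩
  rw [Set.ncard_eq_toFinset_card _ hf]
  exact hC d _ n _ fun S hS => key S (hf.mem_toFinset.1 hS)

end Pool.Agent.P.MP_d1c5d3_co.PL
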