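import Pool.Agent.P.MP_d1c5d3_co.PL.TBIN
import Pool.Agent.P.MP_d1c5d3_co.PL.TGIB
import Pool.Agent.P.MP_d1c5d3_co.PL.TMOM
import Pool.Agent.P.MP_d1c5d3_co.PL.TTWO
import Pool.Agent.P.MP_d1c5d3_co.PL.TDET
import Pool.Agent.P.MP_d1c5d3_co.PL.TNBS
import Pool.Agent.P.MP_d1c5d3_co.PL.TREC
import Pool.Agent.P.MP_d1c5d3_co.PL.TSOL
import Pool.Agent.P.MP_d1c5d3_co.PL.TRW
import Pool.Agent.P.MP_d1c5d3_co.PL.TSIG
import Pool.Agent.P.MP_d1c5d3_co.PL.TLEV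
import Pool.Agent.P.MP_d1c5d3_co.PL.TFRESH
import Pool.Agent.P.MP_d1c5d3_co.PL.TPHASE
import Pool.Agent.P.MP_d1c5d3_co.PL.TNUM
import Pool.Agent.P.MP_d1c5d3_co.PL.TREACH
import Pool.Agent.P.MP_d1c5d3_co.PL.TGF
import Pool.Agent.P.MP_d1c5d3_co.PL.TLOW
import Pool.Agent.P.MP_d1c5d3_co.PL.TCONN
import Pool.Agent.P.MP_d1c5d3_co.PL.TROOT
import Pool.Agent.P.MP_d1c5d3_co.PL.TSUP
import Pool.Agent.P.MP_d1c5d3_co.PL.TFEK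
import Pool.Agent.P.MP_d1c5d3_co.PL.TUP
import Pool.Agent.P.MP_d1c5d3_co.PL.Final

/-! The two-sided estimate. -/

set_option autoImplicit false

namespace Pool.Agent.P.MP_d1c5d3_co.PL

open Filter Topology

theorem low : S_LOW :=
  have mom := p_MOM p_BIN
  have nbs := p_NBS
  p_LOW (p_GIB p_BIN) mom
    (p_PHASE mom (p_SIG p_RW) (p_FRESH mom p_TWO (p_SOL (p_REC p_BIN nbs)) p_RW
      (p_LEV p_BIN (p_DET p_TWO) nbs))) p_NUM (p_GF p_REACH)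

theorem main : ∃ C : ℝ, ∀ d : ℕ, 1 ≤ d → (∀ n, (poly d n).Finite) ∧ ∃ l : ℝ,
    Tendsto (fun n : ℕ => ((poly d n).ncard : ℝ) ^ ((1 : ℝ) / (n : ℝ))) atTop (𝓝 l) ∧
    |l - (2 * d - 3) * Real.exp 1| ≤ C / d :=
  final low (p_ROOT p_CONN) (p_SUP p_CONN) p_FEK p_UP

end Pool.Agent.P.MP_d1c5d3_co.PL
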