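import Pool.Agent.P.MP_d1c5d3_co.PL.Iface

/-! Step BIN. -/

set_option autoImplicit false

namespace Pool.Agent.P.MP_d1c5d3_co.PL

open Finset Filter Topology

theorem bin_insert {d : ℕ} (p : ℝ) {a : Cell d} {F : Finset (Cell d)} (h : a ∉ F)
    (φ : Finset (Cell d) → ℝ) :
    Bin p (insert a F) φ = (1 - p) * Bin p F φ + p * Bin p F fun S => φ (insert a S) := by
  simp only [Bin, sum_powerset_insert h, mul_sum, card_insert_of_notMem h]
  congr 1 <;> refine sum_congr rfl fun S hS => ?_
  · rw [Nat.succ_sub (card_le_card (mem_powerset.1 hS)), pow_succ]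
    ring
  · rw [card_insert_of_notMem fun h' => h (mem_powerset.1 hS h'), Nat.add_sub_add_right]
    ring

theorem bin_pairs {d : ℕ} {a : Cell d} {S : Finset (Cell d)} (h : a ∉ S)
    (g : Cell d → Cell d → ℝ) :
    pairs (insert a S) g = pairs S g + ∑ b ∈ S, (g a b + g b a) := by
  have e : ∀ x ∈ S, ∑ b ∈ (insert a S).erase x, g x b = g x a + ∑ b ∈ S.erase x, g x b :=
    fun x hx => by
      have e : a ≠ x := fun e => h (e ▸ hx)
      rw [erase_insert_of_ne e, sum_insert fun h' => h (mem_of_mem_erase h')]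
  simp only [pairs]
  rw [sum_insert h, erase_insert h, sum_congr rfl e, sum_add_distrib, sum_add_distrib]
  ring

theorem bin_one {d : ℕ} (p : ℝ) (F : Finset (Cell d)) (ψ : Cell d → ℝ) :
    Bin p F (fun S => ∑ b ∈ S, ψ b) = p * ∑ x ∈ F, ψ x := by
  induction F using Finset.induction_on with
  | empty => simp [Bin]
  | insert a F h ih =>
    rw [bin_insert p h, Bin_congr p (ψ := fun S => ψ a + ∑ b ∈ S, ψ b)
      fun S hS => sum_insert fun h' => h (hS h'), Bin_add, Bin_const, ih, sum_insert h]
    ring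

theorem p_BIN :
    S_BIN := by
  refine fun d p F => ⟨bin_one p F, fun g => ?_⟩
  induction F using Finset.induction_on with
  | empty => simp [Bin, pairs]
  | insert a F h ih =>
    rw [bin_insert p h, Bin_congr p (ψ := fun S => pairs S g + ∑ b ∈ S, (g a b + g b a))
      fun S hS => bin_pairs (fun h' => h (hS h')) g, Bin_add, bin_one, ih, bin_pairs h]
    ring

end Pool.Agent.P.MP_d1c5d3_co.PL
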