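import Pool.Agent.P.MP_d1c5d3_co.PL.Iface

/-! Step FEK. -/

set_option autoImplicit false

namespace Pool.Agent.P.MP_d1c5d3_co.PL

open Finset Filter Topology

theorem p_FEK :
    S_FEK := by
  intro t U h1 hm hU h0
  have hpos : ∀ n, 1 ≤ n → 1 ≤ t n := by
    intro n hn
    induction n, hn using Nat.le_induction with
    | base => exact h1
    | succ n _ ih => exact (Nat.mul_pos ih h1).trans_le (hm n 1)
  have hposR : ∀ n, 1 ≤ n → (0 : ℝ) < t n := fun n hn => by exact_mod_cast hpos n hn
  have hv0 : Real.log (t 0) = 0 := by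
    rcases Nat.le_one_iff_eq_zero_or_eq_one.1 h0 with h | h <;> simp [h]
  have hsub : Subadditive fun n => -Real.log (t n) := by
    intro m n
    rcases Nat.eq_zero_or_pos m with rfl | hm0
    · simp [hv0]
    rcases Nat.eq_zero_or_pos n with rfl | hn0
    · simp [hv0]
    have e : Real.log ((t m : ℝ) * t n) ≤ Real.log (t (m + n)) :=
      Real.log_le_log (mul_pos (hposR m hm0) (hposR n hn0)) (by exact_mod_cast hm m n)
    rw [Real.log_mul (hposR m hm0).ne' (hposR n hn0).ne'] at e
    show -Real.log (t (m + n)) ≤ -Real.log (t m) + -Real.log (t n)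
    linarith
  have hU1 : (1 : ℝ) ≤ U := by
    have := hU 1 le_rfl
    have h2 : (1 : ℝ) ≤ t 1 := by exact_mod_cast h1
    rw [pow_one] at this
    linarith
  have hlow : ∀ n : ℕ, -Real.log U ≤ -Real.log (t n) / n := by
    intro n
    rcases Nat.eq_zero_or_pos n with rfl | hn
    · simpa using Real.log_nonneg hU1
    have hn' : (0 : ℝ) < n := by exact_mod_cast hn
    have e := Real.log_le_log (hposR n hn) (hU n hn)
    rw [Real.log_pow] at e
    rw [le_div_iff₀ hn']
    linarith
  have hb : BddBelow (Set.range fun n : ℕ => -Real.log (t n) / n) :=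
    ⟨-Real.log U, by rintro _ ⟨n, rfl⟩; exact hlow n⟩
  have hT := hsub.tendsto_lim hb
  have hle : ∀ n, (t n : ℝ) ≤ Real.exp (-hsub.lim) ^ n := by
    intro n
    rcases Nat.eq_zero_or_pos n with rfl | hn
    · rw [pow_zero]; exact_mod_cast h0
    have hn' : (0 : ℝ) < n := by exact_mod_cast hn
    have e : hsub.lim ≤ -Real.log (t n) / n := hsub.lim_le_div hb hn.ne'
    rw [le_div_iff₀ hn'] at e
    rw [← Real.exp_nat_mul, ← Real.exp_log (hposR n hn)]
    exact Real.exp_le_exp.2 (by linarith)
  refine ⟨Real.exp (-hsub.lim), ?_, ?_, hle, ?_⟩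
  · have := hle 1
    have h2 : (1 : ℝ) ≤ t 1 := by exact_mod_cast h1
    rw [pow_one] at this
    linarith
  · have e : -Real.log U ≤ hsub.lim := ge_of_tendsto' hT hlow
    rw [← Real.exp_log (show 0 < U by linarith)]
    exact Real.exp_le_exp.2 (by linarith)
  · refine ((Real.continuous_exp.tendsto _).comp hT.neg).congr' ?_
    filter_upwards [eventually_ge_atTop 1] with n hn
    rw [Function.comp_apply, Real.rpow_def_of_pos (hposR n hn)]
    congr 1
    ring

end Pool.Agent.P.MP_d1c5d3_co.PL
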