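import Pool.Agent.P.MP_d1c5d3_co.PL.Iface

/-! Step LEV. -/

set_option autoImplicit false

namespace Pool.Agent.P.MP_d1c5d3_co.PL

open Finset Filter Topology

theorem lev_pairs_nonneg {d : ℕ} (Z : Finset (Cell d)) {g : Cell d → Cell d → ℝ}
    (h : ∀ a b, 0 ≤ g a b) : 0 ≤ pairs Z g :=
  sum_nonneg fun _ _ => sum_nonneg fun _ _ => h _ _

theorem p_LEV (hBIN : S_BIN) (hDET : S_DET) (hNBS : S_NBS) :
    S_LEV := by
  intro d p q hp
  refine ⟨?_, fun k => ?_⟩
  · have h := hDET d (s0 d) inv_s0 ∅ (empty_subset _)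
    have h0 : (0 : Cell d) ∉ nb ({0} : Finset (Cell d)) := by
      intro h
      obtain ⟨z, hz, t, e⟩ := mem_nb.1 h
      rw [mem_singleton.1 hz, zero_add] at e
      exact u_ne_zero t e.symm
    have e : (s0 d).2 ∩ nb {0} = ∅ := singleton_inter_of_notMem h0
    rw [e] at h
    simpa [s0, pairs, ff, Ex] using h
  · have hp0 := (hp.2 k).1
    have hpq := (hp.2 k).2
    simp only [zz, ff, QQ, RR, Ex_succ]
    rw [mul_comm (Ex p k _) ((2 * (d : ℝ)) ^ 2), ← Ex_mul, ← Ex_mul, ← Ex_add, ← Ex_add, ← Ex_add,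
      ← Ex_mul, ← Ex_add]
    refine Ex_mono hp k fun s hs => ?_
    have h1 := Bin_mono hp0 (hpq.trans hp.1) (F := fresh s) fun S hS =>
      hDET d (step s S) (inv_step hs hS) s.2 (hs.1.trans subset_union_left)
    rw [Bin_add, Bin_add, Bin_add, Bin_mul, Bin_mul] at h1
    have h2' : Bin (p k) (fresh s) (fun S => pairs (step s S).2 (gs s.2)) =
        p k ^ 2 * pairs (fresh s) (gs s.2) := (hBIN d (p k) (fresh s)).2 _
    have h3 := (hNBS d s.2 (fresh s) (fresh_sub s)).2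
    have h4 : 0 ≤ (s.2.card : ℝ) * (2 * d) ^ 2 + pairs s.2 fun a b => T (T h2) (a - b) :=
      add_nonneg (by positivity) (lev_pairs_nonneg _ fun a b => T_nonneg (T_nonneg h2_nonneg) _)
    have h5 : p k ^ 2 * pairs (fresh s) (gs s.2) ≤
        q ^ 2 * ((s.2.card : ℝ) * (2 * d) ^ 2 + pairs s.2 fun a b => T (T h2) (a - b)) :=
      (mul_le_mul_of_nonneg_left h3 (by positivity)).trans
        (mul_le_mul_of_nonneg_right (pow_le_pow_left₀ hp0 hpq 2) h4)
    rw [h2'] at h1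
    linarith

end Pool.Agent.P.MP_d1c5d3_co.PL
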